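import Mathlib

namespace Pool.Agent.Lib.MP_a7db77_an

/-- Index set: families `m` of size `m + 1`. -/
abbrev I := Σ m : ℕ, Fin (m + 1)

/-- Finitely supported vectors. -/
abbrev V := I →₀ ℂ

/-- The pairing of a family of scalars with a finitely supported vector. -/
noncomputable def pr (f : I → ℂ) (v : V) : ℂ := v.sum (fun j a => a * f j)

theorem pr_def (f : I → ℂ) (v : V) : pr f v = ∑ j ∈ v.support, v j * f j := rfl

theorem pr_eq_lin (f : I → ℂ) (v : V) : pr f v = Finsupp.linearCombination ℂ f v := by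
  simp [pr, Finsupp.linearCombination_apply]

theorem pr_add_right (f : I → ℂ) (v w : V) : pr f (v + w) = pr f v + pr f w := by
  simp [pr_eq_lin]

theorem pr_sub_right (f : I → ℂ) (v w : V) : pr f (v - w) = pr f v - pr f w := by
  simp [pr_eq_lin]

theorem pr_smul_right (f : I → ℂ) (c : ℂ) (v : V) : pr f (c • v) = c * pr f v := by
  simp [pr_eq_lin]

theorem pr_single (f : I → ℂ) (j : I) (a : ℂ) : pr f (Finsupp.single j a) = a * f j := by
  simp [pr_eq_lin, Finsupp.linearCombination_single]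

theorem pr_add_left (f g : I → ℂ) (v : V) : pr (f + g) v = pr f v + pr g v := by
  simp [pr_def, mul_add, Finset.sum_add_distrib]

theorem pr_sub_left (f g : I → ℂ) (v : V) : pr (f - g) v = pr f v - pr g v := by
  simp [pr_def, mul_sub, Finset.sum_sub_distrib]

theorem pr_smul_left (c : ℂ) (f : I → ℂ) (v : V) : pr (c • f) v = c * pr f v := by
  simp only [pr_def, Pi.smul_apply, smul_eq_mul, Finset.mul_sum]
  exact Finset.sum_congr rfl fun j _ => by ring

theorem pr_congr {f g : I → ℂ} {v : V} (h : ∀ j ∈ v.support, f j = g j) : pr f v = pr g v := by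
  rw [pr_def, pr_def]
  exact Finset.sum_congr rfl fun j hj => by rw [h j hj]

/-- The constraint imposed by the family `m` with base point `v`. -/
def cond (f : I → ℂ) (v : V) (m : ℕ) : Prop :=
  (∀ i : Fin (m + 1), ‖pr f v + f ⟨m, i⟩‖ ≤ 1) ∧ ∑ i : Fin (m + 1), ‖f ⟨m, i⟩‖ ≤ 2

/-- `v` is supported on the families of index `< m`. -/
def low (m : ℕ) (v : V) : Prop := ∀ j ∈ v.support, j.1 < m

open Classical in
/-- The base points, defined by recursion from an enumeration `t` of vectors. -/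
noncomputable def xs (t : ℕ → V) : ℕ → V
  | m => if low m (t m) then
      (((max 1 (sSup {r : ℝ | ∃ f : I → ℂ, (∀ l, ∀ _h : l < m, cond f (xs t l) l) ∧
        r = ‖pr f (t m)‖}) : ℝ) : ℂ))⁻¹ • t m
    else 0
termination_by m => m

/-- Functions satisfying the constraints of the families `< m`. -/
def KP (t : ℕ → V) (m : ℕ) : Set (I → ℂ) := {f | ∀ l, l < m → cond f (xs t l) l}

/-- Functions satisfying all the constraints. -/
def KK (t : ℕ → V) : Set (I → ℂ) := {f | ∀ l, cond f (xs t l) l}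

/-- The normalizing constant. -/
noncomputable def nrm (t : ℕ → V) (m : ℕ) : ℝ :=
  max 1 (sSup {r : ℝ | ∃ f : I → ℂ, f ∈ KP t m ∧ r = ‖pr f (t m)‖})

open Classical in
theorem xs_eq (t : ℕ → V) (m : ℕ) :
    xs t m = if low m (t m) then ((nrm t m : ℝ) : ℂ)⁻¹ • t m else 0 := by
  rw [xs]
  rfl

theorem xs_low (t : ℕ → V) (m : ℕ) : low m (xs t m) := by
  classical
  rw [xs_eq]
  split_ifs with h
  · intro j hj
    exact h j (Finsupp.support_smul hj)
  · intro j hj
    simp at hj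

theorem mem_KK_iff (t : ℕ → V) (f : I → ℂ) : f ∈ KK t ↔ ∀ m, f ∈ KP t m := by
  constructor
  · intro h m l _
    exact h l
  · intro h l
    exact h (l + 1) l (Nat.lt_succ_self l)

theorem KP_mono {t : ℕ → V} {f : I → ℂ} {m n : ℕ} (hmn : m ≤ n) (h : f ∈ KP t n) : f ∈ KP t m :=
  fun l hl => h l (lt_of_lt_of_le hl hmn)

theorem KP_succ {t : ℕ → V} {f : I → ℂ} {m : ℕ} :
    f ∈ KP t (m + 1) ↔ f ∈ KP t m ∧ cond f (xs t m) m := by
  constructor
  · intro h
    exact ⟨KP_mono (Nat.le_succ m) h, h m (Nat.lt_succ_self m)⟩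
  · rintro ⟨h1, h2⟩ l hl
    rcases Nat.lt_succ_iff_lt_or_eq.1 hl with h | rfl
    · exact h1 l h
    · exact h2

theorem norm_le_two_of_KP {t : ℕ → V} {f : I → ℂ} {m : ℕ} (h : f ∈ KP t m) {j : I}
    (hj : j.1 < m) : ‖f j‖ ≤ 2 := by
  obtain ⟨l, i⟩ := j
  refine le_trans ?_ (h l hj).2
  exact Finset.single_le_sum (f := fun i : Fin (l + 1) => ‖f ⟨l, i⟩‖)
    (fun i _ => norm_nonneg _) (Finset.mem_univ i)

theorem norm_le_two {t : ℕ → V} {f : I → ℂ} (h : f ∈ KK t) (j : I) : ‖f j‖ ≤ 2 :=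
  norm_le_two_of_KP ((mem_KK_iff t f).1 h (j.1 + 1)) (Nat.lt_succ_self _)

/-- The `ℓ₁` norm of a vector. -/
noncomputable def l1 (v : V) : ℝ := ∑ j ∈ v.support, ‖v j‖

theorem l1_nonneg (v : V) : 0 ≤ l1 v := Finset.sum_nonneg fun _ _ => norm_nonneg _

theorem norm_pr_le {t : ℕ → V} {f : I → ℂ} {m : ℕ} (h : f ∈ KP t m) {v : V} (hv : low m v) :
    ‖pr f v‖ ≤ 2 * l1 v := by
  rw [pr_def, l1, Finset.mul_sum]
  refine (norm_sum_le _ _).trans (Finset.sum_le_sum fun j hj => ?_)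
  rw [norm_mul, mul_comm]
  exact mul_le_mul_of_nonneg_right (norm_le_two_of_KP h (hv j hj)) (norm_nonneg _)

theorem exists_low (v : V) : ∃ m, low m v := by
  classical
  refine ⟨v.support.sup (fun j => j.1) + 1, fun j hj => ?_⟩
  exact Nat.lt_succ_of_le (Finset.le_sup (f := fun j : I => j.1) hj)

theorem low_mono {m n : ℕ} (hmn : m ≤ n) {v : V} (h : low m v) : low n v :=
  fun j hj => lt_of_lt_of_le (h j hj) hmn

theorem norm_pr_le' {t : ℕ → V} {f : I → ℂ} (h : f ∈ KK t) (v : V) :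
    ‖pr f v‖ ≤ 2 * l1 v := by
  obtain ⟨m, hm⟩ := exists_low v
  exact norm_pr_le ((mem_KK_iff t f).1 h m) hm

theorem nrm_ge_one (t : ℕ → V) (m : ℕ) : 1 ≤ nrm t m := le_max_left _ _

theorem le_nrm {t : ℕ → V} {m : ℕ} (hl : low m (t m)) {f : I → ℂ} (hf : f ∈ KP t m) :
    ‖pr f (t m)‖ ≤ nrm t m := by
  refine le_trans ?_ (le_max_right _ _)
  refine le_csSup ⟨2 * l1 (t m), ?_⟩ ⟨f, hf, rfl⟩
  rintro r ⟨g, hg, rfl⟩
  exact norm_pr_le hg hl

theorem norm_pr_xs_le {t : ℕ → V} {m : ℕ} {f : I → ℂ} (hf : f ∈ KP t m) :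
    ‖pr f (xs t m)‖ ≤ 1 := by
  classical
  rw [xs_eq]
  split_ifs with h
  · rw [pr_smul_right, norm_mul, norm_inv, Complex.norm_real, Real.norm_eq_abs,
      abs_of_nonneg (le_trans zero_le_one (nrm_ge_one t m))]
    rw [inv_mul_le_iff₀ (lt_of_lt_of_le zero_lt_one (nrm_ge_one t m)), mul_one]
    exact le_nrm h hf
  · simp [pr]

/-- Truncation: keep only the families `< m`. -/
noncomputable def trunc (m : ℕ) (f : I → ℂ) : I → ℂ := fun j => if j.1 < m then f j else 0

theorem trunc_of_lt {m : ℕ} (f : I → ℂ) {j : I} (h : j.1 < m) : trunc m f j = f j := by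
  simp [trunc, h]

theorem trunc_of_ge {m : ℕ} (f : I → ℂ) {j : I} (h : m ≤ j.1) : trunc m f j = 0 := by
  simp [trunc, not_lt.2 h]

theorem pr_trunc {m : ℕ} (f : I → ℂ) {v : V} (h : low m v) : pr (trunc m f) v = pr f v :=
  pr_congr fun j hj => trunc_of_lt f (h j hj)

theorem cond_congr {f g : I → ℂ} {t : ℕ → V} {l m : ℕ} (hl : l < m)
    (h : ∀ j : I, j.1 < m → f j = g j) (hf : cond f (xs t l) l) : cond g (xs t l) l := by
  have h1 : pr f (xs t l) = pr g (xs t l) :=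
    pr_congr fun j hj => h j (lt_trans (xs_low t l j hj) hl)
  refine ⟨fun i => ?_, ?_⟩
  · rw [← h1, ← h ⟨l, i⟩ hl]
    exact hf.1 i
  · have : ∀ i : Fin (l + 1), ‖g ⟨l, i⟩‖ = ‖f ⟨l, i⟩‖ := fun i => by rw [h ⟨l, i⟩ hl]
    simp only [this]
    exact hf.2

theorem KP_congr {f g : I → ℂ} {t : ℕ → V} {m : ℕ}
    (h : ∀ j : I, j.1 < m → f j = g j) (hf : f ∈ KP t m) : g ∈ KP t m :=
  fun l hl => cond_congr hl h (hf l hl)

/-- If `f` satisfies the constraints below `m` and vanishes from `m` on, it is in `KK`. -/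
theorem mem_KK_of_zero {t : ℕ → V} {m : ℕ} {f : I → ℂ} (hf : f ∈ KP t m)
    (h0 : ∀ j : I, m ≤ j.1 → f j = 0) : f ∈ KK t := by
  rw [mem_KK_iff]
  intro n
  induction n with
  | zero => exact fun l hl => absurd hl (Nat.not_lt_zero l)
  | succ n ih =>
    rcases Nat.lt_or_ge n m with h | h
    · exact KP_mono h hf
    · rw [KP_succ]
      refine ⟨ih, fun i => ?_, ?_⟩
      · rw [h0 ⟨n, i⟩ h, add_zero]
        exact norm_pr_xs_le ih
      · have : ∀ i : Fin (n + 1), ‖f ⟨n, i⟩‖ = 0 := fun i => by rw [h0 ⟨n, i⟩ h, norm_zero]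
        simp only [this, Finset.sum_const_zero]
        norm_num

theorem trunc_mem {t : ℕ → V} {m : ℕ} {f : I → ℂ} (hf : f ∈ KP t m) : trunc m f ∈ KK t :=
  mem_KK_of_zero (KP_congr (fun _ hj => (trunc_of_lt f hj).symm) hf)
    fun _ hj => trunc_of_ge f hj

theorem trunc_mem' {t : ℕ → V} (m : ℕ) {f : I → ℂ} (hf : f ∈ KK t) : trunc m f ∈ KK t :=
  trunc_mem ((mem_KK_iff t f).1 hf m)

theorem zero_mem (t : ℕ → V) : (0 : I → ℂ) ∈ KK t :=
  mem_KK_of_zero (m := 0) (fun l hl => absurd hl (Nat.not_lt_zero l)) fun _ _ => rfl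

theorem KP_smul {t : ℕ → V} {m : ℕ} {f : I → ℂ} (hf : f ∈ KP t m) {c : ℂ} (hc : ‖c‖ ≤ 1) :
    c • f ∈ KP t m := by
  intro l hl
  refine ⟨fun i => ?_, ?_⟩
  · rw [pr_smul_left, Pi.smul_apply, smul_eq_mul, ← mul_add, norm_mul]
    exact mul_le_one₀ hc (norm_nonneg _) ((hf l hl).1 i)
  · refine le_trans (Finset.sum_le_sum fun i _ => ?_) (hf l hl).2
    rw [Pi.smul_apply, smul_eq_mul, norm_mul]
    exact mul_le_of_le_one_left (norm_nonneg _) hc

/-- The functional used for the numerical radius: `trunc m f` plus the value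
`1 - ⟨f, x_m⟩` at one index of the family `m`. -/
noncomputable def bump (t : ℕ → V) (m : ℕ) (i : Fin (m + 1)) (f : I → ℂ) : I → ℂ :=
  trunc m f + (1 - pr f (xs t m)) • (Pi.single (⟨m, i⟩ : I) (1 : ℂ))

theorem bump_mem {t : ℕ → V} {m : ℕ} (i : Fin (m + 1)) {f : I → ℂ} (hf : f ∈ KP t m) :
    bump t m i f ∈ KK t := by
  classical
  have hlt : ∀ j : I, j.1 < m → bump t m i f j = f j := by
    intro j hj
    have hne : j ≠ ⟨m, i⟩ := by
      rintro rfl
      exact lt_irrefl _ hj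
    simp [bump, trunc_of_lt f hj, Pi.single_eq_of_ne hne]
  have hpr : pr (bump t m i f) (xs t m) = pr f (xs t m) :=
    pr_congr fun j hj => hlt j (xs_low t m j hj)
  have hval : ∀ i' : Fin (m + 1), bump t m i f ⟨m, i'⟩ =
      if i' = i then 1 - pr f (xs t m) else 0 := by
    intro i'
    by_cases h : i' = i
    · subst h
      have h3 : trunc m f (⟨m, i'⟩ : I) = 0 := trunc_of_ge f (le_refl m)
      simp [bump, h3]
    · have hne : (⟨m, i'⟩ : I) ≠ ⟨m, i⟩ := by
        intro h2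
        apply h
        simpa using h2
      simp [bump, trunc_of_ge (j := (⟨m, i'⟩ : I)) f (le_refl m), h]
  have h1 : ‖pr f (xs t m)‖ ≤ 1 := norm_pr_xs_le hf
  refine mem_KK_of_zero (m := m + 1) (KP_succ.2 ⟨KP_congr (fun j hj => (hlt j hj).symm) hf, ?_, ?_⟩) ?_
  · intro i'
    rw [hpr, hval]
    split_ifs with h
    · simp
    · simpa using h1
  · simp only [hval]
    have : ∀ i' : Fin (m + 1), ‖(if i' = i then 1 - pr f (xs t m) else 0)‖ =
        if i' = i then ‖1 - pr f (xs t m)‖ else 0 := by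
      intro i'
      split_ifs <;> simp
    simp only [this, Finset.sum_ite_eq', Finset.mem_univ, if_true]
    refine (norm_sub_le _ _).trans ?_
    rw [norm_one]
    linarith
  · intro j hj
    have hne : j ≠ ⟨m, i⟩ := by
      rintro rfl
      simp at hj
    simp [bump, trunc_of_ge f (le_trans (Nat.le_succ m) hj), Pi.single_eq_of_ne hne]

theorem single_mem (t : ℕ → V) (j : I) : (Pi.single j (1 : ℂ) : I → ℂ) ∈ KK t := by
  obtain ⟨m, i⟩ := j
  have h := bump_mem (t := t) i (f := 0) (m := m) ((mem_KK_iff t 0).1 (zero_mem t) m)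
  have h2 : bump t m i 0 = Pi.single (⟨m, i⟩ : I) (1 : ℂ) := by
    funext j
    simp [bump, trunc, pr]
  rwa [h2] at h

end Pool.Agent.Lib.MP_a7db77_an
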