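import Mathlib

namespace Pool.Agent.Lib.MP_a7db77_an

variable {E : Type*} [NormedAddCommGroup E] [NormedSpace ℂ E]

/-- `P : E → E` is a continuous `k`-homogeneous polynomial: `P x = A (x, …, x)` for some
bounded (equivalently continuous) `k`-linear map `A : E ^ k → E`. -/
def IsHomPoly (k : ℕ) (P : E → E) : Prop :=
  ∃ A : ContinuousMultilinearMap ℂ (fun _ : Fin k => E) E, ∀ x, P x = A (fun _ => x)

/-- The norm of a polynomial: the supremum of `‖P x‖` over `‖x‖ ≤ 1`. -/
noncomputable def polyNorm (P : E → E) : ℝ := sSup {r : ℝ | ∃ x : E, ‖x‖ ≤ 1 ∧ r = ‖P x‖}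

/-- The numerical radius of `P`: the supremum of `|φ (P x)|` over all `x` and all bounded linear
functionals `φ` with `‖x‖ = ‖φ‖ = 1` and `φ x = 1`. -/
noncomputable def numRadius (P : E → E) : ℝ :=
  sSup {r : ℝ | ∃ (x : E) (φ : E →L[ℂ] ℂ), ‖x‖ = 1 ∧ ‖φ‖ = 1 ∧ φ x = 1 ∧ r = ‖φ (P x)‖}

/-- The `k`-th polynomial numerical index of `E`: the infimum of the numerical radii of the
continuous `k`-homogeneous polynomials of norm one. -/
noncomputable def polyNumIndex (k : ℕ) (E : Type*) [NormedAddCommGroup E] [NormedSpace ℂ E] : ℝ :=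
  sInf {r : ℝ | ∃ P : E → E, IsHomPoly k P ∧ polyNorm P = 1 ∧ r = numRadius P}

end Pool.Agent.Lib.MP_a7db77_an
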