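import Pool.Agent.Lib.MP_a7db77_an.Ext

namespace Pool.Agent.Lib.MP_a7db77_an

/-- Every complex number has a Gaussian rational approximation. -/
theorem exists_gauss (z : ℂ) {ε : ℝ} (hε : 0 < ε) : ∃ q : ℚ × ℚ,
    ‖z - ((q.1 : ℂ) + (q.2 : ℂ) * Complex.I)‖ ≤ ε := by
  obtain ⟨a, ha1, ha2⟩ := exists_rat_btwn (show z.re < z.re + ε / 2 by linarith)
  obtain ⟨b, hb1, hb2⟩ := exists_rat_btwn (show z.im < z.im + ε / 2 by linarith)
  refine ⟨(a, b), ?_⟩
  refine (Complex.norm_le_abs_re_add_abs_im _).trans ?_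
  have h1 : (z - ((a : ℂ) + (b : ℂ) * Complex.I)).re = z.re - a := by simp
  have h2 : (z - ((a : ℂ) + (b : ℂ) * Complex.I)).im = z.im - b := by simp
  simp only [h1, h2]
  rw [abs_of_neg (by linarith), abs_of_neg (by linarith)]
  linarith

/-- The vector with the given Gaussian rational coordinates. -/
noncomputable def gv (d : I →₀ ℚ × ℚ) : V :=
  d.mapRange (fun q : ℚ × ℚ => (q.1 : ℂ) + (q.2 : ℂ) * Complex.I) (by simp)

theorem exists_enum : ∃ s : ℕ → (I →₀ ℚ × ℚ), Function.Surjective s :=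
  exists_surjective_nat _

/-- An enumeration of the Gaussian rational vectors. -/
noncomputable def enum : ℕ → (I →₀ ℚ × ℚ) := exists_enum.choose

theorem enum_surj : Function.Surjective enum := exists_enum.choose_spec

/-- The enumeration in which every Gaussian rational vector occurs infinitely often. -/
noncomputable def tt (m : ℕ) : V := gv (enum (Nat.unpair m).1)

theorem exists_tt (v : V) {ε : ℝ} (hε : 0 < ε) (M : ℕ) :
    ∃ m, M ≤ m ∧ low m (tt m) ∧ ∀ f : I → ℂ, f ∈ KK tt → ‖pr f (tt m) - pr f v‖ ≤ ε := by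
  classical
  set c : ℝ := v.support.card + 1 with hc
  have hcpos : 0 < c := by positivity
  choose r hr using fun z : ℂ => exists_gauss z (ε := ε / (2 * c)) (by positivity)
  let r0 : ℂ → ℚ × ℚ := fun z => if z = 0 then 0 else r z
  let d : I →₀ ℚ × ℚ := v.mapRange r0 (by simp [r0])
  obtain ⟨n, hn⟩ := enum_surj d
  obtain ⟨m0, hm0⟩ := exists_low (gv d)
  refine ⟨Nat.pair n (max M m0), ?_, ?_, ?_⟩
  · exact (le_max_left _ _).trans (Nat.right_le_pair _ _)
  · have : tt (Nat.pair n (max M m0)) = gv d := by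
      simp [tt, hn]
    rw [this]
    exact low_mono ((le_max_right _ _).trans (Nat.right_le_pair _ _)) hm0
  · intro f hf
    have : tt (Nat.pair n (max M m0)) = gv d := by
      simp [tt, hn]
    rw [this, ← pr_sub_right]
    have hsupp : (gv d - v).support ⊆ v.support := by
      intro j hj
      by_contra h
      have hv : v j = 0 := by simpa using h
      have : (gv d - v) j = 0 := by
        simp [gv, d, r0, hv]
      simp [this] at hj
    have hbd : ∀ j ∈ v.support, ‖(gv d - v) j‖ ≤ ε / (2 * c) := by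
      intro j hj
      have hv : v j ≠ 0 := by simpa using hj
      have : (gv d - v) j = (((r (v j)).1 : ℂ) + ((r (v j)).2 : ℂ) * Complex.I) - v j := by
        simp [gv, d, r0, hv]
      rw [this, norm_sub_rev]
      exact hr (v j)
    have hl1 : l1 (gv d - v) ≤ v.support.card * (ε / (2 * c)) := by
      rw [l1]
      refine (Finset.sum_le_sum_of_subset_of_nonneg hsupp fun _ _ _ => norm_nonneg _).trans ?_
      refine (Finset.sum_le_sum hbd).trans ?_
      simp
    refine (norm_pr_le' hf _).trans ?_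
    have h2 : (v.support.card : ℝ) * (ε / (2 * c)) ≤ c * (ε / (2 * c)) :=
      mul_le_mul_of_nonneg_right (by rw [hc]; linarith) (by positivity)
    have h3 : c * (ε / (2 * c)) = ε / 2 := by
      field_simp
    linarith

/-- The base points are dense in the unit ball, and each approximation occurs infinitely often. -/
theorem exists_xs {v : V} (hv : ∀ f : I → ℂ, f ∈ KK tt → ‖pr f v‖ ≤ 1) {ε : ℝ} (hε : 0 < ε)
    (M : ℕ) : ∃ m, M ≤ m ∧ ∀ f : I → ℂ, f ∈ KK tt → ‖pr f (xs tt m) - pr f v‖ ≤ ε := by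
  classical
  obtain ⟨m, hMm, hlow, hm⟩ := exists_tt v (half_pos hε) M
  refine ⟨m, hMm, fun f hf => ?_⟩
  have hN : nrm tt m ≤ 1 + ε / 2 := by
    refine max_le (by linarith) (csSup_le ⟨_, 0, (mem_KK_iff tt 0).1 (zero_mem tt) m, rfl⟩ ?_)
    rintro r ⟨g, hg, rfl⟩
    rw [← pr_trunc g hlow]
    have h1 := hm _ (trunc_mem hg)
    have h2 := hv _ (trunc_mem hg)
    calc ‖pr (trunc m g) (tt m)‖ = ‖(pr (trunc m g) (tt m) - pr (trunc m g) v) +
          pr (trunc m g) v‖ := by ring_nf
      _ ≤ _ := norm_add_le _ _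
      _ ≤ 1 + ε / 2 := by linarith
  have hN1 := nrm_ge_one tt m
  have hNpos : 0 < nrm tt m := by linarith
  have hx : xs tt m = ((nrm tt m : ℝ) : ℂ)⁻¹ • tt m := by
    rw [xs_eq, if_pos hlow]
  have hx1 : ‖pr f (xs tt m)‖ ≤ 1 := norm_pr_xs_le ((mem_KK_iff tt f).1 hf m)
  have ht : pr f (tt m) = ((nrm tt m : ℝ) : ℂ) * pr f (xs tt m) := by
    have hne : ((nrm tt m : ℝ) : ℂ) ≠ 0 := by exact_mod_cast hNpos.ne'
    rw [hx, pr_smul_right, ← mul_assoc, mul_inv_cancel₀ hne, one_mul]
  have h3 : ‖pr f (xs tt m) - pr f (tt m)‖ ≤ ε / 2 := by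
    have : pr f (xs tt m) - pr f (tt m) = (((1 - nrm tt m : ℝ)) : ℂ) * pr f (xs tt m) := by
      rw [ht]
      push_cast
      ring
    rw [this, norm_mul, Complex.norm_real, Real.norm_eq_abs, abs_of_nonpos (by linarith)]
    calc -(1 - nrm tt m) * ‖pr f (xs tt m)‖ ≤ (ε / 2) * 1 :=
          mul_le_mul (by linarith) hx1 (norm_nonneg _) (by linarith)
      _ = ε / 2 := mul_one _
  calc ‖pr f (xs tt m) - pr f v‖ = ‖(pr f (xs tt m) - pr f (tt m)) +
        (pr f (tt m) - pr f v)‖ := by ring_nf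
    _ ≤ _ := norm_add_le _ _
    _ ≤ ε := by
      have := hm f hf
      linarith

end Pool.Agent.Lib.MP_a7db77_an
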