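import Pool.Agent.Lib.MP_a7db77_an.Constr

namespace Pool.Agent.Lib.MP_a7db77_an

/-- The functional `½ (g + trunc m f) + (ζ/16) (G - trunc m G)`. -/
noncomputable def HH (m : ℕ) (f G g : I → ℂ) (ζ : ℂ) : I → ℂ :=
  (1 / 2 : ℂ) • (g + trunc m f) + (ζ / 16) • (G - trunc m G)

theorem HH_of_lt {m : ℕ} {f G g : I → ℂ} {ζ : ℂ} {j : I} (hj : j.1 < m) (hg : g j = f j) :
    HH m f G g ζ j = f j := by
  simp only [HH, Pi.add_apply, Pi.smul_apply, Pi.sub_apply, trunc_of_lt _ hj, hg, smul_eq_mul]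
  ring

theorem HH_of_ge {m : ℕ} {f G g : I → ℂ} {ζ : ℂ} {j : I} (hj : m ≤ j.1) :
    HH m f G g ζ j = 1 / 2 * g j + ζ / 16 * G j := by
  simp only [HH, Pi.add_apply, Pi.smul_apply, Pi.sub_apply, trunc_of_ge _ hj, smul_eq_mul]
  ring

theorem pr_HH {m : ℕ} {f G g : I → ℂ} {ζ : ℂ} (v : V) :
    pr (HH m f G g ζ) v = 1 / 2 * (pr g v + pr (trunc m f) v) +
      ζ / 16 * (pr G v - pr (trunc m G) v) := by
  simp only [HH, pr_add_left, pr_smul_left, pr_sub_left]

/-- A complex number `a` with `‖a + ζ b‖ ≤ c` for all `‖ζ‖ ≤ 1` satisfies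
`‖a‖ + ‖b‖ ≤ c`. -/
theorem norm_add_norm_le {a b : ℂ} {c : ℝ} (h : ∀ ζ : ℂ, ‖ζ‖ ≤ 1 → ‖a + ζ * b‖ ≤ c) :
    ‖a‖ + ‖b‖ ≤ c := by
  by_cases ha : a = 0
  · subst ha
    simpa using h 1 (by simp)
  by_cases hb : b = 0
  · subst hb
    simpa using h 0 (by simp)
  have hna : (‖a‖ : ℂ) ≠ 0 := by exact_mod_cast norm_ne_zero_iff.2 ha
  have hnb : (‖b‖ : ℂ) ≠ 0 := by exact_mod_cast norm_ne_zero_iff.2 hb
  have h1 := h ((a / ‖a‖) * (‖b‖ / b)) (by
    rw [norm_mul, norm_div, norm_div, Complex.norm_real, Complex.norm_real, norm_norm, norm_norm,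
      div_self (norm_ne_zero_iff.2 ha), div_self (norm_ne_zero_iff.2 hb), one_mul])
  have h2 : a + a / ‖a‖ * (‖b‖ / b) * b = a / ‖a‖ * ((‖a‖ + ‖b‖ : ℝ) : ℂ) := by
    push_cast
    field_simp
  rw [h2, norm_mul, norm_div, Complex.norm_real, norm_norm, div_self (norm_ne_zero_iff.2 ha),
    one_mul, Complex.norm_real, Real.norm_eq_abs, abs_of_nonneg (by positivity)] at h1
  exact h1

/-- The elementary inequality for the choice of the new values: first case. -/
theorem norm_sub_dir_le {w z : ℂ} {s : ℝ} (hw : ‖w‖ ≤ 1) (hz : ‖z‖ ≤ 1)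
    (hwz : 3 / 2 < ‖w + z‖) (hs0 : 0 ≤ s) (hs1 : s ≤ 1) :
    ‖w - s * ((w + z) / ‖w + z‖)‖ ≤ 1 ∧ ‖w + z - s * ((w + z) / ‖w + z‖)‖ = ‖w + z‖ - s := by
  have hpos : 0 < ‖w + z‖ := by linarith
  have hne : (‖w + z‖ : ℂ) ≠ 0 := by exact_mod_cast hpos.ne'
  set η : ℂ := (w + z) / ‖w + z‖ with hη
  have hη1 : ‖η‖ = 1 := by
    rw [hη, norm_div, Complex.norm_real, norm_norm, div_self hpos.ne']
  have hsum : w + z = (‖w + z‖ : ℂ) * η := by
    rw [hη]
    field_simp
  constructor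
  · -- use real inner products
    have hre : Complex.re (w * (starRingEnd ℂ) η) + Complex.re (z * (starRingEnd ℂ) η)
        = ‖w + z‖ := by
      rw [← Complex.add_re, ← add_mul, hsum, mul_assoc, Complex.mul_conj, Complex.normSq_eq_norm_sq,
        hη1]
      simp [hη1]
    have hrez : Complex.re (z * (starRingEnd ℂ) η) ≤ 1 := by
      refine (Complex.re_le_norm _).trans ?_
      rw [norm_mul, Complex.norm_conj, hη1, mul_one]
      exact hz
    have hrew : 1 / 2 ≤ Complex.re (w * (starRingEnd ℂ) η) := by linarith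
    have hsq : ‖w - s * η‖ ^ 2 ≤ 1 := by
      rw [← Complex.normSq_eq_norm_sq, Complex.normSq_sub]
      have e1 : Complex.normSq w ≤ 1 := by
        rw [Complex.normSq_eq_norm_sq]
        nlinarith [norm_nonneg w]
      have e2 : Complex.normSq (↑s * η) = s ^ 2 := by
        rw [Complex.normSq_eq_norm_sq, norm_mul, hη1, mul_one, Complex.norm_real, Real.norm_eq_abs,
          sq_abs]
      have e3 : Complex.re (w * (starRingEnd ℂ) (↑s * η)) = s * Complex.re (w * (starRingEnd ℂ) η) := by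
        rw [map_mul, Complex.conj_ofReal, ← mul_assoc, mul_comm w (s : ℂ), mul_assoc,
          Complex.re_ofReal_mul]
      rw [e2, e3]
      nlinarith
    nlinarith [norm_nonneg (w - s * η)]
  · have : w + z - s * η = ((‖w + z‖ - s : ℝ) : ℂ) * η := by
      conv_lhs => rw [hsum]
      push_cast
      ring
    rw [this, norm_mul, hη1, mul_one, Complex.norm_real, Real.norm_eq_abs, abs_of_nonneg]
    linarith

/-- The key extension lemma. -/
theorem exists_ext {t : ℕ → V} {m : ℕ} {f G : I → ℂ} (hf : f ∈ KP t m) (hG : G ∈ KK t)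
    (L : ℕ) (hL : m ≤ L) :
    ∃ g : I → ℂ, (∀ j : I, j.1 < m → g j = f j) ∧ g ∈ KP t L ∧
      ∀ ζ : ℂ, ‖ζ‖ ≤ 1 → HH m f G g ζ ∈ KP t L := by
  classical
  induction L, hL using Nat.le_induction with
  | base =>
    refine ⟨f, fun _ _ => rfl, hf, fun ζ _ => KP_congr (fun j hj => ?_) hf⟩
    exact (HH_of_lt hj rfl).symm
  | succ L hL ih =>
    obtain ⟨g, hgf, hg, hH⟩ := ih
    set w : ℂ := pr g (xs t L) with hw
    set z : ℂ := pr (trunc m f) (xs t L) with hz
    have hw1 : ‖w‖ ≤ 1 := norm_pr_xs_le hg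
    have hz1 : ‖z‖ ≤ 1 := norm_pr_xs_le ((mem_KK_iff t _).1 (trunc_mem hf) L)
    set κ : ℂ := pr G (xs t L) - pr (trunc m G) (xs t L) with hκ
    have hκ2 : ‖κ‖ ≤ 2 := by
      refine (norm_sub_le _ _).trans ?_
      have a1 : ‖pr G (xs t L)‖ ≤ 1 := norm_pr_xs_le ((mem_KK_iff t _).1 hG L)
      have a2 : ‖pr (trunc m G) (xs t L)‖ ≤ 1 :=
        norm_pr_xs_le ((mem_KK_iff t _).1 (trunc_mem' m hG) L)
      linarith
    have hsum : ‖w + z‖ / 2 + ‖κ‖ / 16 ≤ 1 := by
      have : ‖(1 / 2 : ℂ) * (w + z)‖ + ‖(1 / 16 : ℂ) * κ‖ ≤ 1 := by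
        refine norm_add_norm_le fun ζ hζ => ?_
        have h1 := norm_pr_xs_le (hH ζ hζ)
        rw [pr_HH] at h1
        have e : (1 / 2 : ℂ) * (w + z) + ζ * ((1 / 16 : ℂ) * κ) =
            1 / 2 * (pr g (xs t L) + pr (trunc m f) (xs t L)) +
              ζ / 16 * (pr G (xs t L) - pr (trunc m G) (xs t L)) := by
          rw [hw, hz, hκ]
          ring
        rw [e]
        exact h1
      rw [norm_mul, norm_mul] at this
      norm_num at this
      linarith
    -- the new values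
    let dir : ℂ := if 3 / 2 < ‖w + z‖ then (w + z) / ‖w + z‖ else 0
    let a : Fin (L + 1) → ℂ := fun i => -((‖G ⟨L, i⟩‖ / 2 : ℝ) : ℂ) * dir
    have hdir : ‖dir‖ ≤ 1 := by
      by_cases hc : 3 / 2 < ‖w + z‖
      · have hpos : 0 < ‖w + z‖ := by linarith
        simp only [dir, hc, if_true]
        rw [norm_div, Complex.norm_real, norm_norm, div_self hpos.ne']
      · simp [dir, hc]
    let g' : I → ℂ := fun j => if h : j.1 = L then a (h ▸ j.2) else g j
    have hg'L : ∀ i : Fin (L + 1), g' ⟨L, i⟩ = a i := by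
      intro i
      simp [g']
    have hg'lt : ∀ j : I, j.1 < L → g' j = g j := by
      intro j hj
      simp [g', hj.ne]
    have hr : ∀ i : Fin (L + 1), ‖G ⟨L, i⟩‖ ≤ 2 := fun i => norm_le_two hG _
    have hGsum : ∑ i : Fin (L + 1), ‖G ⟨L, i⟩‖ ≤ 2 := (hG L).2
    have ha : ∀ i, ‖a i‖ ≤ ‖G ⟨L, i⟩‖ / 2 := by
      intro i
      simp only [a, norm_mul, norm_neg, Complex.norm_real, Real.norm_eq_abs]
      rw [abs_of_nonneg (by positivity)]
      exact mul_le_of_le_one_right (by positivity) hdir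
    have hprg' : pr g' (xs t L) = w := by
      rw [hw]
      exact pr_congr fun j hj => hg'lt j (xs_low t L j hj)
    have hprH : ∀ ζ, pr (HH m f G g' ζ) (xs t L) = 1 / 2 * (w + z) + ζ / 16 * κ := by
      intro ζ
      rw [pr_HH, hprg']
    refine ⟨g', fun j hj => ?_, ?_, fun ζ hζ => ?_⟩
    · rw [hg'lt j (lt_of_lt_of_le hj hL)]
      exact hgf j hj
    · rw [KP_succ]
      refine ⟨KP_congr (fun j hj => (hg'lt j hj).symm) hg, fun i => ?_, ?_⟩
      · rw [hprg', hg'L]
        by_cases hc : 3 / 2 < ‖w + z‖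
        · have h1 := (norm_sub_dir_le (s := ‖G ⟨L, i⟩‖ / 2) hw1 hz1 hc (by positivity)
            (by linarith [hr i])).1
          have e : w + a i = w - ((‖G ⟨L, i⟩‖ / 2 : ℝ) : ℂ) * ((w + z) / ‖w + z‖) := by
            simp only [a, dir, hc, if_true]
            ring
          rw [e]
          exact h1
        · have e : w + a i = w := by
            simp [a, dir, hc]
          rw [e]
          exact hw1
      · simp only [hg'L]
        have h1 : ∑ i, ‖a i‖ ≤ ∑ i : Fin (L + 1), ‖G ⟨L, i⟩‖ / 2 :=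
          Finset.sum_le_sum fun i _ => ha i
        rw [← Finset.sum_div] at h1
        linarith
    · rw [KP_succ]
      refine ⟨KP_congr (fun j hj => ?_) (hH ζ hζ), fun i => ?_, ?_⟩
      · rcases Nat.lt_or_ge j.1 m with hjm | hjm
        · rw [HH_of_lt hjm (hgf j hjm), HH_of_lt hjm (by rw [hg'lt j hj, hgf j hjm])]
        · rw [HH_of_ge hjm, HH_of_ge hjm, hg'lt j hj]
      · rw [hprH, HH_of_ge hL, hg'L]
        have e : 1 / 2 * (w + z) + ζ / 16 * κ + (1 / 2 * a i + ζ / 16 * G ⟨L, i⟩) =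
            1 / 2 * (w + z + a i) + ζ / 16 * κ + ζ / 16 * G ⟨L, i⟩ := by ring
        rw [e]
        have hζ16 : ‖ζ / 16‖ ≤ 1 / 16 := by
          rw [norm_div]
          norm_num
          linarith
        have b1 : ‖ζ / 16 * κ‖ ≤ ‖κ‖ / 16 := by
          rw [norm_mul]
          calc ‖ζ / 16‖ * ‖κ‖ ≤ 1 / 16 * ‖κ‖ :=
                mul_le_mul_of_nonneg_right hζ16 (norm_nonneg _)
            _ = ‖κ‖ / 16 := by ring
        have b2 : ‖ζ / 16 * G ⟨L, i⟩‖ ≤ ‖G ⟨L, i⟩‖ / 16 := by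
          rw [norm_mul]
          calc ‖ζ / 16‖ * ‖G ⟨L, i⟩‖ ≤ 1 / 16 * ‖G ⟨L, i⟩‖ :=
                mul_le_mul_of_nonneg_right hζ16 (norm_nonneg _)
            _ = ‖G ⟨L, i⟩‖ / 16 := by ring
        have b3 : ‖(1 / 2 : ℂ) * (w + z + a i)‖ = ‖w + z + a i‖ / 2 := by
          rw [norm_mul]
          norm_num
          ring
        have htri := (norm_add_le ((1 / 2 : ℂ) * (w + z + a i) + ζ / 16 * κ)
          (ζ / 16 * G ⟨L, i⟩)).trans (add_le_add_left (norm_add_le _ _) _)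
        by_cases hc : 3 / 2 < ‖w + z‖
        · have h1 := (norm_sub_dir_le (s := ‖G ⟨L, i⟩‖ / 2) hw1 hz1 hc (by positivity)
            (by linarith [hr i])).2
          have e : w + z + a i = w + z - ((‖G ⟨L, i⟩‖ / 2 : ℝ) : ℂ) * ((w + z) / ‖w + z‖) := by
            simp only [a, dir, hc, if_true]
            ring
          rw [← e] at h1
          rw [b3, h1] at htri
          have := norm_nonneg (G ⟨L, i⟩)
          linarith
        · have e : w + z + a i = w + z := by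
            simp [a, dir, hc]
          rw [b3, e] at htri
          rw [e]
          have h3 : ‖w + z‖ ≤ 3 / 2 := not_lt.1 hc
          have := hr i
          linarith
      · have h1 : ∀ i : Fin (L + 1), ‖HH m f G g' ζ ⟨L, i⟩‖ ≤ ‖G ⟨L, i⟩‖ := by
          intro i
          rw [HH_of_ge hL, hg'L]
          refine (norm_add_le _ _).trans ?_
          have e1 : ‖(1 / 2 : ℂ) * a i‖ = ‖a i‖ / 2 := by
            rw [norm_mul]
            norm_num
            ring
          have e2 : ‖ζ / 16 * G ⟨L, i⟩‖ ≤ ‖G ⟨L, i⟩‖ / 16 := by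
            rw [norm_mul, norm_div, div_mul_eq_mul_div]
            have h16 : ‖(16 : ℂ)‖ = 16 := by norm_num
            rw [h16]
            exact div_le_div_of_nonneg_right (mul_le_of_le_one_left (norm_nonneg _) hζ)
              (by norm_num)
          rw [e1]
          have := ha i
          have h0 := norm_nonneg (G ⟨L, i⟩)
          linarith
        exact (Finset.sum_le_sum fun i _ => h1 i).trans hGsum

end Pool.Agent.Lib.MP_a7db77_an
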