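import Pool.Agent.Lib.MP_a7db77_an.NoC0
import Pool.Agent.Lib.MP_a7db77_an.Defs

open scoped ZeroAtInfty

namespace Pool.Agent.Lib.MP_a7db77_an

section general

variable {E : Type*} [NormedAddCommGroup E] [NormedSpace ℂ E]

theorem IsHomPoly.bound {k : ℕ} {P : E → E} (h : IsHomPoly k P) :
    ∃ c : ℝ, 0 ≤ c ∧ ∀ x, ‖x‖ ≤ 1 → ‖P x‖ ≤ c := by
  obtain ⟨A, hA⟩ := h
  refine ⟨‖A‖, norm_nonneg _, fun x hx => ?_⟩
  rw [hA]
  refine (A.le_opNorm _).trans ?_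
  exact mul_le_of_le_one_right (norm_nonneg _)
    (Finset.prod_le_one (fun _ _ => norm_nonneg _) fun _ _ => hx)

theorem IsHomPoly.norm_le {k : ℕ} {P : E → E} (h : IsHomPoly k P) {x : E} (hx : ‖x‖ ≤ 1) :
    ‖P x‖ ≤ polyNorm P := by
  obtain ⟨c, _, hc⟩ := h.bound
  refine le_csSup ⟨c, ?_⟩ ⟨x, hx, rfl⟩
  rintro r ⟨y, hy, rfl⟩
  exact hc y hy

theorem polyNorm_nonneg (P : E → E) : 0 ≤ polyNorm P := by
  refine Real.sSup_nonneg ?_
  rintro r ⟨y, _, rfl⟩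
  exact norm_nonneg _

theorem IsHomPoly.numRadius_le {k : ℕ} {P : E → E} (h : IsHomPoly k P) :
    numRadius P ≤ polyNorm P := by
  refine Real.sSup_le ?_ (polyNorm_nonneg P)
  rintro r ⟨x, φ, hx, hφ, _, rfl⟩
  refine (φ.le_opNorm _).trans ?_
  rw [hφ, one_mul]
  exact h.norm_le hx.le

theorem IsHomPoly.le_numRadius {k : ℕ} {P : E → E} (h : IsHomPoly k P) {x : E} {φ : E →L[ℂ] ℂ}
    (hx : ‖x‖ = 1) (hφ : ‖φ‖ = 1) (hφx : φ x = 1) : ‖φ (P x)‖ ≤ numRadius P := by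
  refine le_csSup ⟨polyNorm P, ?_⟩ ⟨x, φ, hx, hφ, hφx, rfl⟩
  rintro r ⟨y, ψ, hy, hψ, _, rfl⟩
  refine (ψ.le_opNorm _).trans ?_
  rw [hψ, one_mul]
  exact h.norm_le hy.le

end general

theorem numRadius_eq {k : ℕ} {P : X → X} (h : IsHomPoly k P) : numRadius P = polyNorm P := by
  refine le_antisymm h.numRadius_le ?_
  have h0 : 0 ≤ numRadius P := by
    refine Real.sSup_nonneg ?_
    rintro r ⟨_, _, _, _, _, rfl⟩
    exact norm_nonneg _
  refine Real.sSup_le ?_ h0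
  rintro r ⟨v, hv, rfl⟩
  refine le_of_forall_pos_le_add fun η hη => ?_
  obtain ⟨A, hA⟩ := id h
  obtain ⟨y, φ, hy, hφ, hφy, hle⟩ := exists_state A hv hη
  have h1 := h.le_numRadius hy hφ hφy
  rw [← hA v, ← hA y] at hle
  linarith

theorem norm_bv_zero : ‖bv ⟨0, 0⟩‖ ≤ 1 := by
  have h1 := norm_bp_add_le 0 0
  have h2 : bp 0 = 0 := by
    have : xs tt 0 = 0 := by
      rw [← Finsupp.support_eq_empty]
      exact Finset.eq_empty_of_forall_notMem fun j hj => absurd (xs_low tt 0 j hj) (Nat.not_lt_zero _)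
    rw [bp, this, map_zero]
  rwa [h2, zero_add] at h1

theorem exists_poly (k : ℕ) : ∃ P : X → X, IsHomPoly k P ∧ polyNorm P = 1 := by
  set φ : X →L[ℂ] ℂ := ev (co ⟨0, 0⟩) with hφ
  set y : X := bv ⟨0, 0⟩ with hy
  have hφy : φ y = 1 := by
    rw [hφ, hy, ev_co_bv, if_pos rfl]
  have hyn : ‖y‖ ≤ 1 := norm_bv_zero
  have hyn1 : ‖y‖ = 1 := by
    refine le_antisymm hyn ?_
    have := norm_ev_apply_le (co ⟨0, 0⟩) y
    rw [← hφ, hφy, norm_one] at this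
    exact this
  have hP : IsHomPoly k (fun x => (φ x) ^ k • y) := by
    refine ⟨((ContinuousMultilinearMap.mkPiAlgebra ℂ (Fin k) ℂ).compContinuousLinearMap
      (fun _ => φ)).smulRight y, fun x => ?_⟩
    simp
  refine ⟨_, hP, le_antisymm ?_ ?_⟩
  · refine Real.sSup_le ?_ zero_le_one
    rintro r ⟨x, hx, rfl⟩
    rw [norm_smul, hyn1, mul_one, norm_pow]
    exact pow_le_one₀ (norm_nonneg _) ((norm_ev_apply_le _ _).trans hx)
  · have := hP.norm_le hyn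
    simpa [hφy, hyn1] using this

theorem polyNumIndex_X (k : ℕ) : polyNumIndex k X = 1 := by
  have h : {r : ℝ | ∃ P : X → X, IsHomPoly k P ∧ polyNorm P = 1 ∧ r = numRadius P} = {1} := by
    ext r
    constructor
    · rintro ⟨P, hP, h1, rfl⟩
      rw [numRadius_eq hP, h1]
      rfl
    · rintro rfl
      obtain ⟨P, hP, h1⟩ := exists_poly k
      exact ⟨P, hP, h1, by rw [numRadius_eq hP, h1]⟩
  rw [polyNumIndex, h, csInf_singleton]

theorem separable_X : TopologicalSpace.SeparableSpace X := by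
  have hd : DenseRange (fun m => ι (tt m)) := by
    rw [Metric.denseRange_iff]
    intro x r hr
    obtain ⟨v, hv⟩ := exists_ι_near x (half_pos hr)
    obtain ⟨m, _, _, hm⟩ := exists_tt v (show 0 < r / 4 by positivity) 0
    refine ⟨m, ?_⟩
    have h1 : ‖ι v - ι (tt m)‖ ≤ r / 4 := norm_le_of fun f => by
      rw [map_sub, norm_sub_rev]
      exact hm f.1 f.2
    rw [dist_eq_norm]
    calc ‖x - ι (tt m)‖ = ‖(x - ι v) + (ι v - ι (tt m))‖ := by congr 1; abel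
      _ ≤ ‖x - ι v‖ + ‖ι v - ι (tt m)‖ := norm_add_le _ _
      _ < r := by linarith
  exact ⟨_, Set.countable_range _, hd⟩

theorem not_finiteDimensional_X : ¬ FiniteDimensional ℂ X := by
  intro hfd
  have hinj : Function.Injective ι := by
    intro v w hvw
    ext j
    rw [← ev_co_ι, ← ev_co_ι, hvw]
  have h1 : FiniteDimensional ℂ V := FiniteDimensional.of_injective ι hinj
  have h2 : Finite I := Module.Finite.finite_basis (R := ℂ) (M := V) Finsupp.basisSingleOne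
  have h3 : Infinite I := Infinite.of_injective (fun m : ℕ => (⟨m, 0⟩ : I)) fun a b h =>
    congrArg Sigma.fst h
  exact h3.not_finite h2

theorem no_c0_copy : ¬ ∃ Y : Submodule ℂ X, IsClosed (Y : Set X) ∧
    Nonempty (Y ≃L[ℂ] C₀(ℕ, ℂ)) := by
  rintro ⟨Y, _, ⟨S⟩⟩
  set T : C₀(ℕ, ℂ) →L[ℂ] X := Y.subtypeL.comp (S.symm : C₀(ℕ, ℂ) →L[ℂ] Y) with hT
  set c : ℝ := ‖(S : Y →L[ℂ] C₀(ℕ, ℂ))‖ + 1 with hc
  have hcpos : 0 < c := by positivity
  refine no_c0 T (δ := 1 / c) (by positivity) fun j => ?_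
  have h1 : sing j = S (S.symm (sing j)) := (S.apply_symm_apply _).symm
  have h2 : ‖sing j‖ ≤ ‖(S : Y →L[ℂ] C₀(ℕ, ℂ))‖ * ‖S.symm (sing j)‖ := by
    conv_lhs => rw [h1]
    exact (S : Y →L[ℂ] C₀(ℕ, ℂ)).le_opNorm _
  have h3 : ‖T (sing j)‖ = ‖S.symm (sing j)‖ := rfl
  rw [h3, div_le_iff₀ hcpos]
  have h4 := one_le_norm_sing j
  have h5 := norm_nonneg (S.symm (sing j))
  rw [hc]
  nlinarith

end Pool.Agent.Lib.MP_a7db77_an
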