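import Pool.Agent.Lib.MP_a7db77_an.Rad

open scoped ZeroAtInfty

namespace Pool.Agent.Lib.MP_a7db77_an

theorem trunc_trunc {m L : ℕ} (h : m ≤ L) (f : I → ℂ) : trunc L (trunc m f) = trunc m f := by
  funext j
  by_cases hj : j.1 < m
  · rw [trunc_of_lt _ (lt_of_lt_of_le hj h)]
  · by_cases hL : j.1 < L
    · rw [trunc_of_lt _ hL]
    · rw [trunc_of_ge _ (not_lt.1 hL), trunc_of_ge _ (not_lt.1 hj)]

/-- The growth lemma. -/
theorem exists_growth (x u : X) (m : ℕ) {α β ε : ℝ} (hε : 0 < ε)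
    (hx : ∀ f : KT, ‖ev f x - ev (tr m f) x‖ ≤ α) (hu : ∀ f : KT, ‖ev (tr m f) u‖ ≤ β) :
    ∃ θ : ℂ, ‖θ‖ = 1 ∧ ‖x‖ + ‖u‖ / 16 - 2 * α - β - ε ≤ ‖x + θ • u‖ := by
  have hβ : 0 ≤ β := (norm_nonneg _).trans (hu ⟨0, zero_mem tt⟩)
  obtain ⟨f, hf⟩ := exists_ev_gt (x := x) (c := ‖x‖ - ε / 2) (by linarith)
  obtain ⟨G, hG⟩ := exists_ev_gt (x := u) (c := ‖u‖ - ε) (by linarith)
  obtain ⟨L0, hL0⟩ := ev_tr_near u hε
  set L := max m L0 with hL
  have hGL := hL0 L (le_max_right _ _) G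
  have hmL : m ≤ L := le_max_left _ _
  obtain ⟨g, hgf, hg, hH⟩ := exists_ext ((mem_KK_iff tt f.1).1 f.2 m) G.2 L hmL
  let Hf : (ζ : ℂ) → ‖ζ‖ ≤ 1 → KT := fun ζ hζ => ⟨trunc L (HH m f.1 G.1 g ζ), trunc_mem (hH ζ hζ)⟩
  let gf : KT := ⟨trunc L g, trunc_mem hg⟩
  have hev : ∀ (ζ : ℂ) (hζ : ‖ζ‖ ≤ 1) (z : X), ev (Hf ζ hζ) z =
      1 / 2 * (ev gf z + ev (tr m f) z) + ζ / 16 * (ev (tr L G) z - ev (tr m G) z) := by
    intro ζ hζ z
    have : ev (Hf ζ hζ) = (1 / 2 : ℂ) • (ev gf + ev (tr m f)) +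
        (ζ / 16) • (ev (tr L G) - ev (tr m G)) := clm_ext fun v => by
      simp only [_root_.add_apply, _root_.smul_apply, _root_.sub_apply, ev_ι, smul_eq_mul]
      have e : (Hf ζ hζ).1 = (1 / 2 : ℂ) • (gf.1 + (tr m f).1) +
          (ζ / 16) • ((tr L G).1 - (tr m G).1) := by
        funext j
        show trunc L (HH m f.1 G.1 g ζ) j = ((1 / 2 : ℂ) • (trunc L g + trunc m f.1) +
          (ζ / 16) • (trunc L G.1 - trunc m G.1)) j
        by_cases hj : j.1 < L
        · rw [trunc_of_lt _ hj]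
          simp only [HH, Pi.add_apply, Pi.smul_apply, Pi.sub_apply, trunc_of_lt _ hj]
        · have hj' := not_lt.1 hj
          rw [trunc_of_ge _ hj']
          simp only [Pi.add_apply, Pi.smul_apply, Pi.sub_apply, trunc_of_ge _ hj',
            trunc_of_ge _ (hmL.trans hj'), smul_eq_mul]
          ring
      rw [e, pr_add_left, pr_smul_left, pr_smul_left, pr_add_left, pr_sub_left]
    rw [this]
    simp only [_root_.add_apply, _root_.smul_apply, _root_.sub_apply, smul_eq_mul]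
  have htr : ∀ (ζ : ℂ) (hζ : ‖ζ‖ ≤ 1), tr m (Hf ζ hζ) = tr m f := by
    intro ζ hζ
    apply Subtype.ext
    funext j
    show trunc m (trunc L (HH m f.1 G.1 g ζ)) j = trunc m f.1 j
    by_cases hj : j.1 < m
    · rw [trunc_of_lt _ hj, trunc_of_lt _ hj, trunc_of_lt _ (lt_of_lt_of_le hj hmL),
        HH_of_lt hj (hgf j hj)]
    · rw [trunc_of_ge _ (not_lt.1 hj), trunc_of_ge _ (not_lt.1 hj)]
  have hxH : ∀ (ζ : ℂ) (hζ : ‖ζ‖ ≤ 1), ‖x‖ - ε / 2 - 2 * α ≤ ‖ev (Hf ζ hζ) x‖ := by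
    intro ζ hζ
    have h1 := hx (Hf ζ hζ)
    rw [htr ζ hζ] at h1
    have h2 := hx f
    have h3 : ‖ev f x‖ ≤ ‖ev (Hf ζ hζ) x‖ + 2 * α := by
      calc ‖ev f x‖ = ‖ev (Hf ζ hζ) x - (ev (Hf ζ hζ) x - ev (tr m f) x) +
            (ev f x - ev (tr m f) x)‖ := by ring_nf
        _ ≤ ‖ev (Hf ζ hζ) x - (ev (Hf ζ hζ) x - ev (tr m f) x)‖ +
            ‖ev f x - ev (tr m f) x‖ := norm_add_le _ _
        _ ≤ ‖ev (Hf ζ hζ) x‖ + ‖ev (Hf ζ hζ) x - ev (tr m f) x‖ +
            ‖ev f x - ev (tr m f) x‖ := by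
          have := norm_sub_le (ev (Hf ζ hζ) x) (ev (Hf ζ hζ) x - ev (tr m f) x)
          linarith
        _ ≤ ‖ev (Hf ζ hζ) x‖ + 2 * α := by linarith
    linarith
  set D : ℂ := ev (tr L G) u - ev (tr m G) u with hD
  have hDn : ‖u‖ - 2 * ε - β ≤ ‖D‖ := by
    have h1 := hu G
    have h2 : ‖ev G u‖ ≤ ‖D‖ + ε + β := by
      calc ‖ev G u‖ = ‖(D + (ev G u - ev (tr L G) u)) + ev (tr m G) u‖ := by
            rw [hD]
            ring_nf
        _ ≤ ‖D + (ev G u - ev (tr L G) u)‖ + ‖ev (tr m G) u‖ := norm_add_le _ _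
        _ ≤ ‖D‖ + ‖ev G u - ev (tr L G) u‖ + ‖ev (tr m G) u‖ := by
          have := norm_add_le D (ev G u - ev (tr L G) u)
          linarith
        _ ≤ _ := by linarith
    linarith
  have h1n : ‖(1 : ℂ)‖ ≤ 1 := by simp
  have hm1n : ‖(-1 : ℂ)‖ ≤ 1 := by simp
  obtain ⟨ζ, hζ, hζu⟩ : ∃ (ζ : ℂ) (hζ : ‖ζ‖ ≤ 1), ‖D‖ / 16 ≤ ‖ev (Hf ζ hζ) u‖ := by
    have hdiff : ev (Hf 1 h1n) u - ev (Hf (-1) hm1n) u = D / 8 := by
      rw [hev 1 h1n, hev (-1) hm1n, hD]
      ring
    have h2 : ‖D‖ / 8 ≤ ‖ev (Hf 1 h1n) u‖ + ‖ev (Hf (-1) hm1n) u‖ := by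
      have := norm_sub_le (ev (Hf 1 h1n) u) (ev (Hf (-1) hm1n) u)
      rw [hdiff, norm_div] at this
      norm_num at this
      exact this
    by_contra hcon
    push Not at hcon
    have c1 := hcon 1 h1n
    have c2 := hcon (-1) hm1n
    linarith
  obtain ⟨θ, hθ1, hθ⟩ := exists_align (ev (Hf ζ hζ) u) (ev (Hf ζ hζ) x)
  refine ⟨θ, hθ1, ?_⟩
  have h4 := norm_ev_apply_le (Hf ζ hζ) (x + θ • u)
  rw [map_add, map_smul, smul_eq_mul, add_comm, hθ] at h4
  have h5 := hxH ζ hζ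
  linarith

/-- The unit vector of `c₀`. -/
noncomputable def sing (j : ℕ) : C₀(ℕ, ℂ) where
  toFun := Pi.single j 1
  continuous_toFun := continuous_of_discreteTopology
  zero_at_infty' := by
    rw [Filter.cocompact_eq_cofinite, Nat.cofinite_eq_atTop]
    refine tendsto_const_nhds.congr' ?_
    filter_upwards [Filter.eventually_gt_atTop j] with n hn
    simp [Pi.single_eq_of_ne hn.ne']

theorem sing_apply (j n : ℕ) : sing j n = if n = j then 1 else 0 := by
  show (Pi.single j (1 : ℂ) : ℕ → ℂ) n = _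
  simp [Pi.single_apply]

theorem C0_norm_le {g : C₀(ℕ, ℂ)} {c : ℝ} (hc : 0 ≤ c) (h : ∀ n, ‖g n‖ ≤ c) : ‖g‖ ≤ c := by
  rw [← ZeroAtInftyContinuousMap.norm_toBCF_eq_norm]
  exact (BoundedContinuousFunction.norm_le hc).2 h

theorem C0_le_norm (g : C₀(ℕ, ℂ)) (n : ℕ) : ‖g n‖ ≤ ‖g‖ := by
  rw [← ZeroAtInftyContinuousMap.norm_toBCF_eq_norm]
  exact BoundedContinuousFunction.norm_coe_le_norm g.toBCF n

theorem sum_sing_apply (s : Finset ℕ) (a : ℕ → ℂ) (n : ℕ) :
    (∑ j ∈ s, a j • sing j) n = if n ∈ s then a n else 0 := by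
  classical
  have : (∑ j ∈ s, a j • sing j) n = ∑ j ∈ s, a j * (sing j n) := by
    induction s using Finset.induction_on with
    | empty => simp
    | insert j s hj ih =>
      rw [Finset.sum_insert hj, Finset.sum_insert hj, ZeroAtInftyContinuousMap.add_apply, ih]
      rfl
  rw [this]
  simp [sing_apply]

theorem norm_sum_sing_le (s : Finset ℕ) (a : ℕ → ℂ) (ha : ∀ j ∈ s, ‖a j‖ ≤ 1) :
    ‖∑ j ∈ s, a j • sing j‖ ≤ 1 := by
  refine C0_norm_le zero_le_one fun n => ?_
  rw [sum_sing_apply]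
  split_ifs with h
  · exact ha n h
  · simp

theorem one_le_norm_sing (j : ℕ) : 1 ≤ ‖sing j‖ := by
  have := C0_le_norm (sing j) j
  rwa [sing_apply, if_pos rfl, norm_one] at this

/-- The truncated evaluation is a finite combination of the coordinate functionals. -/
theorem ev_tr_le (m : ℕ) (f : KT) (x : X) :
    ‖ev (tr m f) x‖ ≤ ∑ l ∈ Finset.range m, ∑ i : Fin (l + 1), 2 * ‖ev (co ⟨l, i⟩) x‖ := by
  classical
  have h : ev (tr m f) = ∑ l ∈ Finset.range m, ∑ i : Fin (l + 1), f.1 ⟨l, i⟩ • ev (co ⟨l, i⟩) := by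
    refine clm_ext fun v => ?_
    simp only [_root_.sum_apply, _root_.smul_apply, smul_eq_mul]
    have hlin : ∀ v : V, pr (tr m f).1 v =
        ∑ l ∈ Finset.range m, ∑ i : Fin (l + 1), f.1 ⟨l, i⟩ * v ⟨l, i⟩ := by
      intro v
      induction v using Finsupp.induction_linear with
      | zero => simp [pr]
      | add v w hv hw =>
        rw [pr_add_right, hv, hw, ← Finset.sum_add_distrib]
        refine Finset.sum_congr rfl fun l _ => ?_
        rw [← Finset.sum_add_distrib]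
        refine Finset.sum_congr rfl fun i _ => ?_
        rw [Finsupp.add_apply]
        ring
      | single j a =>
        obtain ⟨l0, i0⟩ := j
        rw [pr_single]
        have hrhs : ∑ l ∈ Finset.range m, ∑ i : Fin (l + 1),
            f.1 ⟨l, i⟩ * (Finsupp.single (⟨l0, i0⟩ : I) a) ⟨l, i⟩ =
            ∑ l ∈ Finset.range m, if l = l0 then f.1 ⟨l0, i0⟩ * a else 0 := by
          refine Finset.sum_congr rfl fun l _ => ?_
          by_cases hl : l = l0
          · subst hl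
            rw [if_pos rfl, Finset.sum_eq_single i0]
            · simp
            · intro i _ hi
              have hne : (⟨l, i0⟩ : I) ≠ ⟨l, i⟩ := by
                intro h2
                apply hi
                simpa using h2.symm
              rw [Finsupp.single_eq_of_ne' hne, mul_zero]
            · simp
          · rw [if_neg hl]
            refine Finset.sum_eq_zero fun i _ => ?_
            have hne : (⟨l0, i0⟩ : I) ≠ ⟨l, i⟩ := by
              intro h2
              apply hl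
              exact (congrArg Sigma.fst h2).symm
            rw [Finsupp.single_eq_of_ne' hne, mul_zero]
        rw [hrhs, Finset.sum_ite_eq']
        by_cases hl0 : l0 < m
        · rw [if_pos (Finset.mem_range.2 hl0)]
          have : (tr m f).1 ⟨l0, i0⟩ = f.1 ⟨l0, i0⟩ := trunc_of_lt f.1 hl0
          rw [this, mul_comm]
        · rw [if_neg (fun h => hl0 (Finset.mem_range.1 h))]
          have : (tr m f).1 ⟨l0, i0⟩ = 0 := trunc_of_ge f.1 (not_lt.1 hl0)
          rw [this, mul_zero]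
    rw [ev_ι, hlin]
    refine Finset.sum_congr rfl fun l _ => Finset.sum_congr rfl fun i _ => ?_
    rw [ev_co_ι]
  rw [h]
  simp only [_root_.sum_apply, _root_.smul_apply, smul_eq_mul]
  refine (norm_sum_le _ _).trans (Finset.sum_le_sum fun l _ => ?_)
  refine (norm_sum_le _ _).trans (Finset.sum_le_sum fun i _ => ?_)
  rw [norm_mul]
  exact mul_le_mul_of_nonneg_right (norm_le_two f.2 _) (norm_nonneg _)

/-- There is no operator from `c₀` to the space which is bounded below on the unit vectors. -/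
theorem no_c0 (T : C₀(ℕ, ℂ) →L[ℂ] X) {δ : ℝ} (hδ : 0 < δ) (hT : ∀ j, δ ≤ ‖T (sing j)‖) :
    False := by
  classical
  set u : ℕ → X := fun j => T (sing j) with hu
  have hbd : ∀ (s : Finset ℕ) (a : ℕ → ℂ), (∀ j ∈ s, ‖a j‖ ≤ 1) → ‖∑ j ∈ s, a j • u j‖ ≤ ‖T‖ := by
    intro s a ha
    have : ∑ j ∈ s, a j • u j = T (∑ j ∈ s, a j • sing j) := by
      rw [map_sum]
      refine Finset.sum_congr rfl fun j _ => ?_
      rw [map_smul]
    rw [this]
    refine (T.le_opNorm _).trans ?_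
    exact mul_le_of_le_one_right (norm_nonneg _) (norm_sum_sing_le s a ha)
  -- functionals tend to zero along `u`
  have hφ : ∀ φ : X →L[ℂ] ℂ, Filter.Tendsto (fun j => ‖φ (u j)‖) Filter.atTop (nhds 0) := by
    intro φ
    have hs : Summable fun j => ‖φ (u j)‖ := by
      refine summable_of_sum_le (c := ‖φ‖ * ‖T‖) (fun _ => norm_nonneg _) fun s => ?_
      let a : ℕ → ℂ := fun i => if φ (u i) = 0 then 0 else ‖φ (u i)‖ / φ (u i)
      have ha : ∀ i, ‖a i‖ ≤ 1 := by
        intro i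
        by_cases h : φ (u i) = 0
        · simp [a, h]
        · simp only [a, h, if_false, norm_div, Complex.norm_real, norm_norm]
          rw [div_self (norm_ne_zero_iff.2 h)]
      have h1 : φ (∑ i ∈ s, a i • u i) = ((∑ i ∈ s, ‖φ (u i)‖ : ℝ) : ℂ) := by
        rw [map_sum]
        push_cast
        refine Finset.sum_congr rfl fun i _ => ?_
        rw [map_smul, smul_eq_mul]
        by_cases h : φ (u i) = 0
        · simp [a, h]
        · simp only [a, h, if_false]
          field_simp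
      have h2 := φ.le_opNorm (∑ i ∈ s, a i • u i)
      rw [h1, Complex.norm_real, Real.norm_eq_abs,
        abs_of_nonneg (Finset.sum_nonneg fun _ _ => norm_nonneg _)] at h2
      exact h2.trans (mul_le_mul_of_nonneg_left (hbd s a fun j _ => ha j) (norm_nonneg _))
    exact hs.tendsto_atTop_zero
  have htrz : ∀ (m : ℕ) {β : ℝ}, 0 < β → ∀ J : ℕ, ∃ j, J ≤ j ∧ ∀ f : KT,
      ‖ev (tr m f) (u j)‖ ≤ β := by
    intro m β hβ J
    have h1 : Filter.Tendsto (fun j => ∑ l ∈ Finset.range m, ∑ i : Fin (l + 1),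
        2 * ‖ev (co ⟨l, i⟩) (u j)‖) Filter.atTop (nhds 0) := by
      have : (0 : ℝ) = ∑ l ∈ Finset.range m, ∑ _i : Fin (l + 1), 2 * 0 := by simp
      rw [this]
      refine tendsto_finsetSum _ fun l _ => tendsto_finsetSum _ fun i _ => ?_
      exact (hφ (ev (co ⟨l, i⟩))).const_mul 2
    have h2 := (h1.eventually (ge_mem_nhds hβ)).and (Filter.eventually_ge_atTop J)
    obtain ⟨j, hj1, hj2⟩ := h2.exists
    exact ⟨j, hj2, fun f => (ev_tr_le m f (u j)).trans hj1⟩
  -- growth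
  have hgrow : ∀ n : ℕ, ∃ (s : Finset ℕ) (a : ℕ → ℂ), (∀ j, ‖a j‖ ≤ 1) ∧
      (n : ℝ) * (δ / 32) ≤ ‖∑ j ∈ s, a j • u j‖ := by
    intro n
    induction n with
    | zero => exact ⟨∅, fun _ => 0, fun _ => by simp, by simp⟩
    | succ n ih =>
      obtain ⟨s, a, ha, hs⟩ := ih
      set x := ∑ j ∈ s, a j • u j with hx
      obtain ⟨m, hm⟩ := ev_tr_near x (ε := δ / 256) (by positivity)
      obtain ⟨j, hjJ, hj⟩ := htrz m (β := δ / 128) (by positivity) (s.sup id + 1)
      obtain ⟨θ, hθ1, hθ⟩ := exists_growth x (u j) m (ε := δ / 128) (by positivity)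
        (hm m le_rfl) hj
      have hjs : j ∉ s := by
        intro h
        have : j ≤ s.sup id := Finset.le_sup (f := id) h
        omega
      refine ⟨insert j s, Function.update a j θ, fun l => ?_, ?_⟩
      · by_cases hl : l = j
        · subst hl
          rw [Function.update_self]
          exact hθ1.le
        · rw [Function.update_of_ne hl]
          exact ha l
      · rw [Finset.sum_insert hjs, Function.update_self]
        have : ∑ l ∈ s, Function.update a j θ l • u l = x := by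
          rw [hx]
          refine Finset.sum_congr rfl fun l hl => ?_
          rw [Function.update_of_ne]
          rintro rfl
          exact hjs hl
        rw [this, add_comm (θ • u j) x]
        have h1 := hT j
        have h2 : δ ≤ ‖u j‖ := h1
        push_cast
        linarith
  obtain ⟨n, hn⟩ := exists_nat_gt (‖T‖ / (δ / 32))
  obtain ⟨s, a, ha, hs⟩ := hgrow n
  have h1 := hbd s a fun j _ => ha j
  rw [div_lt_iff₀ (by positivity)] at hn
  linarith

end Pool.Agent.Lib.MP_a7db77_an
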