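import Pool.Agent.Lib.MP_a7db77_an.Space

namespace Pool.Agent.Lib.MP_a7db77_an

/-- The sum of the moduli of a functional over vectors whose unimodular combinations have norm
at most two. -/
theorem sum_norm_le {E : Type*} [NormedAddCommGroup E] [NormedSpace ℂ E] {N : ℕ} (e : Fin N → E)
    (he : ∀ a : Fin N → ℂ, (∀ i, ‖a i‖ ≤ 1) → ‖∑ i, a i • e i‖ ≤ 2) {φ : E → ℂ}
    (hφa : ∀ a : Fin N → ℂ, φ (∑ i, a i • e i) = ∑ i, a i * φ (e i)) {c : ℝ}
    (hφ : ∀ x, ‖φ x‖ ≤ c * ‖x‖) (hc : 0 ≤ c) :
    ∑ i, ‖φ (e i)‖ ≤ 2 * c := by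
  let a : Fin N → ℂ := fun i => if φ (e i) = 0 then 0 else ‖φ (e i)‖ / φ (e i)
  have ha : ∀ i, ‖a i‖ ≤ 1 := by
    intro i
    by_cases h : φ (e i) = 0
    · simp [a, h]
    · simp only [a, h, if_false, norm_div, Complex.norm_real, norm_norm]
      rw [div_self (norm_ne_zero_iff.2 h)]
  have h1 : φ (∑ i, a i • e i) = ((∑ i, ‖φ (e i)‖ : ℝ) : ℂ) := by
    rw [hφa]
    push_cast
    refine Finset.sum_congr rfl fun i _ => ?_
    by_cases h : φ (e i) = 0
    · simp [a, h]
    · simp only [a, h, if_false]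
      field_simp
  have h2 := hφ (∑ i, a i • e i)
  rw [h1, Complex.norm_real, Real.norm_eq_abs,
    abs_of_nonneg (Finset.sum_nonneg fun _ _ => norm_nonneg _)] at h2
  refine h2.trans ?_
  rw [mul_comm]
  exact mul_le_mul_of_nonneg_right (he a ha) hc

/-- The sign vectors. -/
abbrev Sg (N : ℕ) := Fin N → Bool

/-- The sign of a boolean. -/
def sgn (b : Bool) : ℂ := if b then 1 else -1

theorem norm_sgn (b : Bool) : ‖sgn b‖ = 1 := by
  cases b <;> simp [sgn]

theorem sgn_mul_self (b : Bool) : sgn b * sgn b = 1 := by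
  cases b <;> simp [sgn]

theorem sgn_not (b : Bool) : sgn (!b) = - sgn b := by
  cases b <;> simp [sgn]

theorem sum_sgn {N : ℕ} (i j : Fin N) :
    ∑ s : Sg N, sgn (s i) * sgn (s j) = if i = j then (Fintype.card (Sg N) : ℂ) else 0 := by
  classical
  split_ifs with h
  · subst h
    simp [sgn_mul_self]
  · -- flip the sign at `j`
    let fl : Sg N → Sg N := fun s => Function.update s j (!(s j))
    have hfl : Function.Involutive fl := by
      intro s
      funext l
      by_cases hl : l = j
      · subst hl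
        simp [fl]
      · simp [fl, Function.update_of_ne hl]
    have h1 : ∑ s : Sg N, sgn (s i) * sgn (s j) = ∑ s : Sg N, sgn (fl s i) * sgn (fl s j) :=
      (Equiv.sum_comp hfl.toPerm (fun s : Sg N => sgn (s i) * sgn (s j))).symm
    have h2 : ∀ s : Sg N, sgn (fl s i) * sgn (fl s j) = -(sgn (s i) * sgn (s j)) := by
      intro s
      have e1 : fl s i = s i := by simp [fl, Function.update_of_ne h]
      have e2 : fl s j = !(s j) := by simp [fl]
      rw [e1, e2, sgn_not]
      ring
    simp only [h2, Finset.sum_neg_distrib] at h1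
    exact self_eq_neg.1 h1

/-- The random combination. -/
noncomputable def zz {E : Type*} [NormedAddCommGroup E] [NormedSpace ℂ E] {N : ℕ}
    (e : Fin N → E) (s : Sg N) : E := ∑ i, sgn (s i) • e i

theorem avg_zz {E : Type*} [NormedAddCommGroup E] [NormedSpace ℂ E] {N : ℕ}
    (e : Fin N → E) (i : Fin N) :
    ∑ s : Sg N, sgn (s i) • zz e s = (Fintype.card (Sg N) : ℂ) • e i := by
  classical
  simp only [zz, Finset.smul_sum, smul_smul]
  rw [Finset.sum_comm]
  simp only [← Finset.sum_smul, sum_sgn]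
  simp [ite_smul]

/-- The main lemma: for an `n`-linear form `B`, the sum over `i` of
`|B (x + e i, …, x + e i) - B (x, …, x)|` is bounded independently of the number of vectors. -/
theorem sum_diag_le {E : Type*} [NormedAddCommGroup E] [NormedSpace ℂ E] {N : ℕ} (e : Fin N → E)
    (he : ∀ a : Fin N → ℂ, (∀ i, ‖a i‖ ≤ 1) → ‖∑ i, a i • e i‖ ≤ 2) {x : E} (hx : ‖x‖ ≤ 1)
    (n : ℕ) (B : ContinuousMultilinearMap ℂ (fun _ : Fin n => E) ℂ) :
    ∑ i, ‖B (fun _ => x + e i) - B (fun _ => x)‖ ≤ (3 ^ n - 1) * ‖B‖ := by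
  induction n with
  | zero =>
    have : ∀ i, B (fun _ => x + e i) = B (fun _ => x) := fun i => by
      congr 1
      funext j
      exact j.elim0
    simp [this]
  | succ n ih =>
    classical
    have hcons : ∀ y : E, (fun _ : Fin (n + 1) => y) = Fin.cons (α := fun _ => E) y (fun _ : Fin n => y) := by
      intro y
      funext j
      refine Fin.cases ?_ (fun _ => ?_) j <;> simp
    have hcur : ∀ y z : E, B (Fin.cons (α := fun _ => E) y (fun _ : Fin n => z)) =
        B.curryLeft y (fun _ => z) := fun y z => rfl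
    have hBn : ∀ y, ‖B.curryLeft y‖ ≤ ‖B‖ * ‖y‖ := fun y => by
      have h := B.curryLeft.le_opNorm y
      rwa [ContinuousMultilinearMap.curryLeft_norm] at h
    set c : ℝ := (Fintype.card (Sg N) : ℝ) with hc
    have hcpos : 0 < c := by
      rw [hc]
      exact_mod_cast Fintype.card_pos
    -- the linear form in the first slot with `x` elsewhere
    have hlin : ∑ i, ‖B.curryLeft (e i) (fun _ => x)‖ ≤ 2 * ‖B‖ := by
      refine sum_norm_le e he (φ := fun y => B.curryLeft y (fun _ => x)) (fun a => ?_)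
        (fun y => ?_) (norm_nonneg _)
      · simp only [map_sum, map_smul]
        rw [_root_.sum_apply]
        rfl
      · refine ((B.curryLeft y).le_opNorm _).trans ?_
        have h1 : ∏ _i : Fin n, ‖x‖ ≤ 1 := Finset.prod_le_one (fun _ _ => norm_nonneg _)
          (fun _ _ => hx)
        calc ‖B.curryLeft y‖ * ∏ _i : Fin n, ‖x‖ ≤ (‖B‖ * ‖y‖) * 1 :=
              mul_le_mul (hBn y) h1 (Finset.prod_nonneg fun _ _ => norm_nonneg _) (by positivity)
          _ = ‖B‖ * ‖y‖ := mul_one _
    -- first part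
    have hpart1 : ∑ i, ‖B.curryLeft x (fun _ => x + e i) - B.curryLeft x (fun _ => x)‖ ≤
        (3 ^ n - 1) * ‖B‖ := by
      refine (ih (B.curryLeft x)).trans ?_
      have h3 : (0 : ℝ) ≤ 3 ^ n - 1 := by
        have : (1 : ℝ) ≤ 3 ^ n := one_le_pow₀ (by norm_num)
        linarith
      refine mul_le_mul_of_nonneg_left ?_ h3
      calc ‖B.curryLeft x‖ ≤ ‖B‖ * ‖x‖ := hBn x
        _ ≤ ‖B‖ := mul_le_of_le_one_right (norm_nonneg _) hx
    -- second part
    have hzz : ∀ s : Sg N, ‖zz e s‖ ≤ 2 := fun s => he _ fun i => (norm_sgn _).le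
    have hpart2 : ∑ i, ‖B.curryLeft (e i) (fun _ => x + e i) - B.curryLeft (e i) (fun _ => x)‖ ≤
        2 * (3 ^ n - 1) * ‖B‖ := by
      have hrep : ∀ i (v : Fin n → E), (c : ℂ) * B.curryLeft (e i) v =
          ∑ s : Sg N, sgn (s i) * B.curryLeft (zz e s) v := by
        intro i v
        have h1 := congrArg (fun y => B.curryLeft y v) (avg_zz e i)
        simp only [map_sum, map_smul] at h1
        rw [_root_.sum_apply] at h1
        simp only [_root_.smul_apply, smul_eq_mul] at h1
        rw [h1, hc]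
        simp
      have hi : ∀ i, c * ‖B.curryLeft (e i) (fun _ => x + e i) -
          B.curryLeft (e i) (fun _ => x)‖ ≤ ∑ s : Sg N,
            ‖B.curryLeft (zz e s) (fun _ => x + e i) - B.curryLeft (zz e s) (fun _ => x)‖ := by
        intro i
        have h1 : c * ‖B.curryLeft (e i) (fun _ => x + e i) -
          B.curryLeft (e i) (fun _ => x)‖ = ‖(c : ℂ) * (B.curryLeft (e i) (fun _ => x + e i) -
          B.curryLeft (e i) (fun _ => x))‖ := by
          rw [norm_mul, Complex.norm_real, Real.norm_eq_abs, abs_of_pos hcpos]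
        rw [h1, mul_sub, hrep, hrep, ← Finset.sum_sub_distrib]
        refine (norm_sum_le _ _).trans (Finset.sum_le_sum fun s _ => ?_)
        rw [← mul_sub, norm_mul, norm_sgn, one_mul]
      have hsum : c * ∑ i, ‖B.curryLeft (e i) (fun _ => x + e i) -
          B.curryLeft (e i) (fun _ => x)‖ ≤ c * (2 * (3 ^ n - 1) * ‖B‖) := by
        rw [Finset.mul_sum]
        refine (Finset.sum_le_sum fun i _ => hi i).trans ?_
        rw [Finset.sum_comm]
        have hs : ∀ s : Sg N, ∑ i, ‖B.curryLeft (zz e s) (fun _ => x + e i) -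
            B.curryLeft (zz e s) (fun _ => x)‖ ≤ 2 * (3 ^ n - 1) * ‖B‖ := by
          intro s
          refine (ih (B.curryLeft (zz e s))).trans ?_
          have h3 : (0 : ℝ) ≤ 3 ^ n - 1 := by
            have : (1 : ℝ) ≤ 3 ^ n := one_le_pow₀ (by norm_num)
            linarith
          calc (3 ^ n - 1) * ‖B.curryLeft (zz e s)‖ ≤ (3 ^ n - 1) * (‖B‖ * 2) :=
                mul_le_mul_of_nonneg_left ((hBn _).trans
                  (mul_le_mul_of_nonneg_left (hzz s) (norm_nonneg _))) h3
            _ = 2 * (3 ^ n - 1) * ‖B‖ := by ring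
        refine (Finset.sum_le_sum fun s _ => hs s).trans ?_
        simp [hc]
      exact le_of_mul_le_mul_left hsum hcpos
    have hfin : ∀ i, ‖B (fun _ => x + e i) - B (fun _ => x)‖ ≤
        ‖B.curryLeft x (fun _ => x + e i) - B.curryLeft x (fun _ => x)‖ +
        ‖B.curryLeft (e i) (fun _ => x + e i) - B.curryLeft (e i) (fun _ => x)‖ +
        ‖B.curryLeft (e i) (fun _ => x)‖ := by
      intro i
      have e1 : B (fun _ => x + e i) - B (fun _ => x) =
          (B.curryLeft x (fun _ => x + e i) - B.curryLeft x (fun _ => x)) +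
          (B.curryLeft (e i) (fun _ => x + e i) - B.curryLeft (e i) (fun _ => x)) +
          B.curryLeft (e i) (fun _ => x) := by
        rw [hcons (x + e i), hcons x, hcur, hcur, map_add, _root_.add_apply]
        ring
      rw [e1]
      refine (norm_add_le _ _).trans (add_le_add_left (norm_add_le _ _) _)
    refine (Finset.sum_le_sum fun i _ => hfin i).trans ?_
    rw [Finset.sum_add_distrib, Finset.sum_add_distrib]
    have : ((3 : ℝ) ^ (n + 1) - 1) * ‖B‖ = (3 ^ n - 1) * ‖B‖ + 2 * (3 ^ n - 1) * ‖B‖ +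
        2 * ‖B‖ := by ring
    linarith

end Pool.Agent.Lib.MP_a7db77_an
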