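import Pool.Agent.Lib.MP_a7db77_an.Poly

namespace Pool.Agent.Lib.MP_a7db77_an

theorem tr_apply_ge (m : ℕ) (f : KT) {j : I} (h : m ≤ j.1) : (tr m f).1 j = 0 :=
  trunc_of_ge f.1 h

theorem ev_co_ι (j : I) (v : V) : ev (co j) (ι v) = v j := by
  classical
  rw [ev_ι, pr_def]
  simp only [co, Pi.single_apply, mul_ite, mul_one, mul_zero]
  rw [Finset.sum_ite_eq']
  split_ifs with h
  · rfl
  · have : v j = 0 := by simpa using h
    exact this.symm

theorem ev_co_bp (m : ℕ) (i : Fin (m + 1)) : ev (co ⟨m, i⟩) (bp m) = 0 := by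
  rw [bp, ev_co_ι]
  by_contra h
  exact lt_irrefl m (xs_low tt m ⟨m, i⟩ (by simpa using h))

theorem tr_sm (m : ℕ) (c : ℂ) (hc : ‖c‖ ≤ 1) (f : KT) : tr m (sm c hc f) = sm c hc (tr m f) := by
  apply Subtype.ext
  funext j
  by_cases h : j.1 < m
  · show trunc m (c • f.1) j = (c • trunc m f.1) j
    rw [trunc_of_lt _ h, Pi.smul_apply, Pi.smul_apply, trunc_of_lt _ h]
  · show trunc m (c • f.1) j = (c • trunc m f.1) j
    rw [trunc_of_ge _ (not_lt.1 h), Pi.smul_apply, trunc_of_ge _ (not_lt.1 h), smul_zero]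

/-- A unimodular number aligning two complex numbers. -/
theorem exists_align (a b : ℂ) : ∃ ω : ℂ, ‖ω‖ = 1 ∧ ‖ω * a + b‖ = ‖a‖ + ‖b‖ := by
  by_cases ha : a = 0
  · exact ⟨1, by simp, by simp [ha]⟩
  by_cases hb : b = 0
  · exact ⟨1, by simp, by simp [hb]⟩
  have hna : (‖a‖ : ℂ) ≠ 0 := by exact_mod_cast norm_ne_zero_iff.2 ha
  have hnb : (‖b‖ : ℂ) ≠ 0 := by exact_mod_cast norm_ne_zero_iff.2 hb
  refine ⟨(‖a‖ / a) * (b / ‖b‖), ?_, ?_⟩
  · rw [norm_mul, norm_div, norm_div, Complex.norm_real, Complex.norm_real, norm_norm, norm_norm,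
      div_self (norm_ne_zero_iff.2 ha), div_self (norm_ne_zero_iff.2 hb), one_mul]
  · have h2 : ‖a‖ / a * (b / ‖b‖) * a + b = b / ‖b‖ * ((‖a‖ + ‖b‖ : ℝ) : ℂ) := by
      push_cast
      field_simp
    rw [h2, norm_mul, norm_div, Complex.norm_real, norm_norm, div_self (norm_ne_zero_iff.2 hb),
      one_mul, Complex.norm_real, Real.norm_eq_abs, abs_of_nonneg (by positivity)]

/-- The numerical radius estimate. -/
theorem exists_state {k : ℕ} (A : ContinuousMultilinearMap ℂ (fun _ : Fin k => X) X) {v : X}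
    (hv : ‖v‖ ≤ 1) {η : ℝ} (hη : 0 < η) :
    ∃ (y : X) (φ : X →L[ℂ] ℂ), ‖y‖ = 1 ∧ ‖φ‖ = 1 ∧ φ y = 1 ∧
      ‖A (fun _ => v)‖ - η ≤ ‖φ (A (fun _ => y))‖ := by
  set η' : ℝ := η / 4 with hη'
  have hη'0 : 0 < η' := by positivity
  let P : X → X := fun y => A (fun _ => y)
  have hPc : Continuous P := A.cont.comp (continuous_pi fun _ => continuous_id)
  obtain ⟨f, hf⟩ := exists_ev_gt (x := P v) (c := ‖P v‖ - η') (by linarith)
  obtain ⟨M1, hM1⟩ := ev_tr_near (P v) hη'0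
  obtain ⟨δ, hδ0, hδ⟩ := Metric.continuousAt_iff.1 (hPc.continuousAt (x := v)) η' hη'0
  obtain ⟨M2, hM2⟩ := exists_nat_gt ((3 ^ k - 1) * ‖A‖ / η')
  obtain ⟨m, hmM, hm⟩ := exists_bp hv (half_pos hδ0) (max M1 M2)
  have hm1 := hM1 m ((le_max_left _ _).trans hmM) f
  have hm2 : (M2 : ℝ) ≤ m := by exact_mod_cast (le_max_right _ _).trans hmM
  have hPm : ‖P (bp m) - P v‖ ≤ η' := by
    have := hδ (x := bp m) (by
      rw [dist_eq_norm]
      linarith)
    rw [dist_eq_norm] at this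
    exact this.le
  -- the multilinear form
  set w : X →L[ℂ] ℂ := ev (tr m f) with hw
  let B : ContinuousMultilinearMap ℂ (fun _ : Fin k => X) ℂ := w.compContinuousMultilinearMap A
  have hBA : ‖B‖ ≤ ‖A‖ := by
    refine (w.norm_compContinuousMultilinearMap_le A).trans ?_
    exact mul_le_of_le_one_left (norm_nonneg _) (norm_ev_le _)
  have hBv : ∀ y, B (fun _ => y) = w (P y) := fun y => rfl
  have hsum := sum_diag_le (fun i : Fin (m + 1) => bv (⟨m, i⟩ : I)) (norm_sum_bv_le m)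
    (norm_bp_le m) k B
  have h3 : (0 : ℝ) ≤ 3 ^ k - 1 := by
    have : (1 : ℝ) ≤ 3 ^ k := one_le_pow₀ (by norm_num)
    linarith
  obtain ⟨i, hi⟩ : ∃ i : Fin (m + 1), ‖w (P (bp m + bv ⟨m, i⟩)) - w (P (bp m))‖ ≤ η' := by
    by_contra hcon
    push Not at hcon
    have h1 : ∑ _i : Fin (m + 1), η' ≤ (3 ^ k - 1) * ‖B‖ := by
      refine (Finset.sum_le_sum fun i _ => (hcon i).le).trans ?_
      exact hsum
    simp only [Finset.sum_const, Finset.card_univ, Fintype.card_fin, nsmul_eq_mul] at h1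
    have h4 : (3 ^ k - 1) * ‖B‖ ≤ (3 ^ k - 1) * ‖A‖ := mul_le_mul_of_nonneg_left hBA h3
    have h5 : (3 ^ k - 1) * ‖A‖ < (m + 1 : ℝ) * η' := by
      rw [div_lt_iff₀ hη'0] at hM2
      nlinarith
    push_cast at h1
    linarith
  set y : X := bp m + bv ⟨m, i⟩ with hy
  set q : ℂ := w (P y) with hq
  set b : ℂ := ev f (bp m) with hb
  have hb1 : ‖b‖ ≤ 1 := (norm_ev_apply_le f _).trans (norm_bp_le m)
  set c : ℂ := ev (co ⟨m, i⟩) (P y) with hc
  obtain ⟨ω, hω1, hω⟩ := exists_align (q - b * c) c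
  set φ : X →L[ℂ] ℂ := ev (bu m i (sm ω hω1.le f)) with hφ
  have hφa : ∀ x, φ x = ω * w x + (1 - ω * b) * ev (co ⟨m, i⟩) x := by
    intro x
    rw [hφ, ev_bu, tr_sm, ev_sm, ev_sm]
  have hwb : w (bp m) = b := ev_bp_tr m f
  have hwe : w (bv ⟨m, i⟩) = 0 := by
    rw [hw, ev_bv]
    exact tr_apply_ge m f (le_refl m)
  have hφy : φ y = 1 := by
    rw [hφa, hy, map_add, map_add, hwb, hwe, ev_co_bp, ev_co_bv, if_pos rfl]
    ring
  have hφn : ‖φ‖ ≤ 1 := norm_ev_le _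
  have hyn : ‖y‖ ≤ 1 := norm_bp_add_le m i
  have h1 : 1 ≤ ‖φ‖ * ‖y‖ := by
    have := φ.le_opNorm y
    rw [hφy, norm_one] at this
    exact this
  refine ⟨y, φ, ?_, ?_, hφy, ?_⟩
  · refine le_antisymm hyn ?_
    nlinarith [norm_nonneg y, norm_nonneg φ]
  · refine le_antisymm hφn ?_
    nlinarith [norm_nonneg y, norm_nonneg φ]
  · have e1 : φ (A (fun _ => y)) = ω * (q - b * c) + c := by
      rw [show A (fun _ => y) = P y from rfl, hφa, ← hq, ← hc]
      ring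
    rw [e1, hω]
    have e2 : ‖q‖ ≤ ‖q - b * c‖ + ‖c‖ := by
      calc ‖q‖ = ‖(q - b * c) + b * c‖ := by ring_nf
        _ ≤ ‖q - b * c‖ + ‖b * c‖ := norm_add_le _ _
        _ ≤ ‖q - b * c‖ + ‖c‖ := by
          rw [norm_mul]
          have := mul_le_of_le_one_left (norm_nonneg c) hb1
          linarith
    have e3 : ‖ev f (P v)‖ ≤ ‖q‖ + 3 * η' := by
      have t1 : ‖w (P (bp m) - P v)‖ ≤ η' := (norm_ev_apply_le _ _).trans hPm
      rw [map_sub] at t1
      have e : ev f (P v) = (ev f (P v) - w (P v)) - (w (P (bp m)) - w (P v)) -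
          (w (P y) - w (P (bp m))) + q := by
        rw [hq]
        ring
      calc ‖ev f (P v)‖ = ‖(ev f (P v) - w (P v)) - (w (P (bp m)) - w (P v)) -
            (w (P y) - w (P (bp m))) + q‖ := by rw [← e]
        _ ≤ ‖(ev f (P v) - w (P v)) - (w (P (bp m)) - w (P v)) -
            (w (P y) - w (P (bp m)))‖ + ‖q‖ := norm_add_le _ _
        _ ≤ ‖(ev f (P v) - w (P v)) - (w (P (bp m)) - w (P v))‖ +
            ‖w (P y) - w (P (bp m))‖ + ‖q‖ := by
          have := norm_sub_le ((ev f (P v) - w (P v)) - (w (P (bp m)) - w (P v)))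
            (w (P y) - w (P (bp m)))
          linarith
        _ ≤ ‖ev f (P v) - w (P v)‖ + ‖w (P (bp m)) - w (P v)‖ +
            ‖w (P y) - w (P (bp m))‖ + ‖q‖ := by
          have := norm_sub_le (ev f (P v) - w (P v)) (w (P (bp m)) - w (P v))
          linarith
        _ ≤ ‖q‖ + 3 * η' := by linarith
    have e4 : ‖A (fun _ => v)‖ = ‖P v‖ := rfl
    rw [e4]
    linarith

end Pool.Agent.Lib.MP_a7db77_an
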