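import Pool.Agent.Lib.MP_a7db77_an.Dense

open scoped BoundedContinuousFunction

namespace Pool.Agent.Lib.MP_a7db77_an

/-- The set of admissible families of scalars, as a discrete space. -/
def KT : Type := {f : I → ℂ // f ∈ KK tt}

instance : TopologicalSpace KT := ⊥

instance : DiscreteTopology KT := ⟨rfl⟩

instance : Nonempty KT := ⟨⟨0, zero_mem tt⟩⟩

/-- The embedding of finitely supported vectors into bounded functions. -/
noncomputable def emb : V →ₗ[ℂ] (KT →ᵇ ℂ) where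
  toFun v := BoundedContinuousFunction.ofNormedAddCommGroupDiscrete (fun f : KT => pr f.1 v)
    (2 * l1 v) (fun f => norm_pr_le' f.2 v)
  map_add' v w := by
    ext f
    simp [pr_add_right]
  map_smul' c v := by
    ext f
    simp [pr_smul_right]

theorem emb_apply (v : V) (f : KT) : emb v f = pr f.1 v := rfl

/-- The submodule whose underlying Banach space is the example. -/
noncomputable def XS : Submodule ℂ (KT →ᵇ ℂ) := (LinearMap.range emb).topologicalClosure

theorem isClosed_XS : IsClosed (XS : Set (KT →ᵇ ℂ)) := Submodule.isClosed_topologicalClosure _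

/-- The Banach space. -/
def X : Type := XS

noncomputable instance : NormedAddCommGroup X := inferInstanceAs (NormedAddCommGroup XS)

noncomputable instance : NormedSpace ℂ X := inferInstanceAs (NormedSpace ℂ XS)

instance : CompleteSpace X := by
  have : CompleteSpace XS := isClosed_XS.completeSpace_coe
  exact this

/-- The inclusion into bounded functions. -/
noncomputable def incl : X →L[ℂ] (KT →ᵇ ℂ) := XS.subtypeL

theorem norm_incl (x : X) : ‖incl x‖ = ‖x‖ := rfl

/-- The evaluation functionals. -/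
noncomputable def ev (f : KT) : X →L[ℂ] ℂ :=
  (BoundedContinuousFunction.evalCLM ℂ f).comp incl

theorem ev_apply (f : KT) (x : X) : ev f x = incl x f := rfl

theorem norm_ev_apply_le (f : KT) (x : X) : ‖ev f x‖ ≤ ‖x‖ := by
  rw [ev_apply, ← norm_incl]
  exact BoundedContinuousFunction.norm_coe_le_norm _ _

theorem norm_ev_le (f : KT) : ‖ev f‖ ≤ 1 :=
  ContinuousLinearMap.opNorm_le_bound _ zero_le_one fun x => by
    rw [one_mul]
    exact norm_ev_apply_le f x

theorem norm_le_of {x : X} {c : ℝ} (h : ∀ f, ‖ev f x‖ ≤ c) : ‖x‖ ≤ c := by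
  rw [← norm_incl]
  exact (BoundedContinuousFunction.norm_le_of_nonempty).2 h

theorem exists_ev_gt {x : X} {c : ℝ} (h : c < ‖x‖) : ∃ f, c < ‖ev f x‖ := by
  by_contra hcon
  push Not at hcon
  exact absurd (norm_le_of hcon) (not_le.2 h)

/-- The finitely supported vectors in the space. -/
noncomputable def ι : V →ₗ[ℂ] X where
  toFun v := ⟨emb v, (Submodule.le_topologicalClosure _) ⟨v, rfl⟩⟩
  map_add' v w := Subtype.ext (map_add emb v w)
  map_smul' c v := Subtype.ext (map_smul emb c v)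

theorem ev_ι (f : KT) (v : V) : ev f (ι v) = pr f.1 v := rfl

theorem denseRange_ι : DenseRange (ι : V → X) := by
  intro x
  have hx : (x.1 : KT →ᵇ ℂ) ∈ closure (LinearMap.range emb : Set (KT →ᵇ ℂ)) := x.2
  rw [Metric.mem_closure_iff] at hx ⊢
  intro ε hε
  obtain ⟨y, ⟨v, rfl⟩, hy⟩ := hx ε hε
  exact ⟨ι v, ⟨v, rfl⟩, hy⟩

theorem exists_ι_near (x : X) {ε : ℝ} (hε : 0 < ε) : ∃ v : V, ‖x - ι v‖ < ε := by
  obtain ⟨v, hv⟩ := Metric.denseRange_iff.1 denseRange_ι x ε hε
  exact ⟨v, by rwa [← dist_eq_norm]⟩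

theorem clm_ext {φ ψ : X →L[ℂ] ℂ} (h : ∀ v, φ (ι v) = ψ (ι v)) : φ = ψ := by
  ext x
  have := DenseRange.equalizer denseRange_ι φ.continuous ψ.continuous (funext h)
  exact congrFun this x

/-- Truncation on the set of admissible families. -/
noncomputable def tr (m : ℕ) (f : KT) : KT := ⟨trunc m f.1, trunc_mem' m f.2⟩

theorem ev_tr_near (x : X) {ε : ℝ} (hε : 0 < ε) : ∃ M, ∀ m, M ≤ m → ∀ f : KT,
    ‖ev f x - ev (tr m f) x‖ ≤ ε := by
  obtain ⟨v, hv⟩ := exists_ι_near x (half_pos hε)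
  obtain ⟨M, hM⟩ := exists_low v
  refine ⟨M, fun m hm f => ?_⟩
  have h1 : ev f (ι v) = ev (tr m f) (ι v) := by
    rw [ev_ι, ev_ι]
    exact (pr_trunc f.1 (low_mono hm hM)).symm
  have e : ev f x - ev (tr m f) x = ev f (x - ι v) - ev (tr m f) (x - ι v) := by
    rw [map_sub, map_sub, h1]
    ring
  rw [e]
  refine (norm_sub_le _ _).trans ?_
  have a1 := norm_ev_apply_le f (x - ι v)
  have a2 := norm_ev_apply_le (tr m f) (x - ι v)
  linarith

/-- The basis vectors. -/
noncomputable def bv (j : I) : X := ι (Finsupp.single j 1)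

theorem ev_bv (f : KT) (j : I) : ev f (bv j) = f.1 j := by
  rw [bv, ev_ι, pr_single, one_mul]

/-- The base points in the space. -/
noncomputable def bp (m : ℕ) : X := ι (xs tt m)

theorem norm_bp_le (m : ℕ) : ‖bp m‖ ≤ 1 :=
  norm_le_of fun f => norm_pr_xs_le ((mem_KK_iff tt f.1).1 f.2 m)

theorem norm_bp_add_le (m : ℕ) (i : Fin (m + 1)) : ‖bp m + bv ⟨m, i⟩‖ ≤ 1 :=
  norm_le_of fun f => by
    rw [map_add, ev_bv, bp, ev_ι]
    exact (f.2 m).1 i

theorem norm_sum_bv_le (m : ℕ) (a : Fin (m + 1) → ℂ) (ha : ∀ i, ‖a i‖ ≤ 1) :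
    ‖∑ i, a i • bv (⟨m, i⟩ : I)‖ ≤ 2 :=
  norm_le_of fun f => by
    rw [map_sum]
    refine (norm_sum_le _ _).trans (le_trans (Finset.sum_le_sum fun i _ => ?_) (f.2 m).2)
    rw [map_smul, smul_eq_mul, norm_mul, ev_bv]
    exact mul_le_of_le_one_left (norm_nonneg _) (ha i)

/-- The coordinate functionals as admissible families. -/
noncomputable def co (j : I) : KT := ⟨Pi.single j 1, single_mem tt j⟩

theorem ev_co_bv (j j' : I) : ev (co j) (bv j') = if j' = j then 1 else 0 := by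
  rw [ev_bv]
  simp [co, Pi.single_apply]

/-- The special functionals. -/
noncomputable def bu (m : ℕ) (i : Fin (m + 1)) (f : KT) : KT :=
  ⟨bump tt m i f.1, bump_mem i ((mem_KK_iff tt f.1).1 f.2 m)⟩

/-- Multiplication by a scalar of modulus at most one. -/
noncomputable def sm (c : ℂ) (hc : ‖c‖ ≤ 1) (f : KT) : KT :=
  ⟨c • f.1, (mem_KK_iff tt _).2 fun m => KP_smul ((mem_KK_iff tt f.1).1 f.2 m) hc⟩

theorem ev_sm (c : ℂ) (hc : ‖c‖ ≤ 1) (f : KT) (x : X) : ev (sm c hc f) x = c * ev f x := by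
  have : ev (sm c hc f) = c • ev f := clm_ext fun v => by
    rw [ev_ι, _root_.smul_apply, ev_ι, smul_eq_mul]
    exact pr_smul_left c f.1 v
  rw [this, _root_.smul_apply, smul_eq_mul]

theorem ev_bu (m : ℕ) (i : Fin (m + 1)) (f : KT) (x : X) :
    ev (bu m i f) x = ev (tr m f) x + (1 - ev f (bp m)) * ev (co ⟨m, i⟩) x := by
  have : ev (bu m i f) = ev (tr m f) + (1 - ev f (bp m)) • ev (co ⟨m, i⟩) := clm_ext fun v => by
    rw [ev_ι, _root_.add_apply, _root_.smul_apply, ev_ι, ev_ι,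
      smul_eq_mul]
    show pr (trunc m f.1 + (1 - pr f.1 (xs tt m)) • (Pi.single (⟨m, i⟩ : I) (1 : ℂ))) v = _
    rw [pr_add_left, pr_smul_left]
    rfl
  rw [this, _root_.add_apply, _root_.smul_apply, smul_eq_mul]

theorem ev_bp_tr (m : ℕ) (f : KT) : ev (tr m f) (bp m) = ev f (bp m) := by
  rw [bp, ev_ι, ev_ι]
  exact pr_trunc f.1 (xs_low tt m)

/-- Density of the base points in the unit ball. -/
theorem exists_bp {x : X} (hx : ‖x‖ ≤ 1) {ε : ℝ} (hε : 0 < ε) (M : ℕ) :
    ∃ m, M ≤ m ∧ ‖bp m - x‖ ≤ ε := by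
  obtain ⟨v, hv⟩ := exists_ι_near x (ε := ε / 3) (by positivity)
  -- scale `v`
  set c : ℝ := 1 + ε / 3 with hc
  have hcpos : 0 < c := by positivity
  have hvn : ‖ι v‖ ≤ c := by
    calc ‖ι v‖ = ‖x - (x - ι v)‖ := by rw [sub_sub_cancel]
      _ ≤ ‖x‖ + ‖x - ι v‖ := norm_sub_le _ _
      _ ≤ c := by rw [hc]; linarith
  set v' : V := ((c : ℂ))⁻¹ • v with hv'
  have hne : (c : ℂ) ≠ 0 := by exact_mod_cast hcpos.ne'
  have hv'1 : ‖ι v'‖ ≤ 1 := by
    rw [hv', map_smul, norm_smul, norm_inv, Complex.norm_real, Real.norm_eq_abs,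
      abs_of_pos hcpos, inv_mul_le_iff₀ hcpos, mul_one]
    exact hvn
  have hvv' : ‖ι v - ι v'‖ ≤ ε / 3 := by
    have : ι v = (c : ℂ) • ι v' := by
      rw [hv', map_smul, smul_smul, mul_inv_cancel₀ hne, one_smul]
    have h2 : ι v - ι v' = ((ε / 3 : ℝ) : ℂ) • ι v' := by
      rw [this, hc]
      push_cast
      rw [add_smul, one_smul, add_sub_cancel_left]
    rw [h2, norm_smul, Complex.norm_real, Real.norm_eq_abs, abs_of_pos (by positivity)]
    exact mul_le_of_le_one_right (by positivity) hv'1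
  obtain ⟨m, hMm, hm⟩ := exists_xs (v := v') (fun f hf => by
    have := (norm_ev_apply_le ⟨f, hf⟩ (ι v')).trans hv'1
    exact this) (ε := ε / 3) (by positivity) M
  refine ⟨m, hMm, ?_⟩
  have h1 : ‖bp m - ι v'‖ ≤ ε / 3 := norm_le_of fun f => by
    rw [map_sub]
    exact hm f.1 f.2
  calc ‖bp m - x‖ = ‖(bp m - ι v') - (ι v - ι v') - (x - ι v)‖ := by congr 1; abel
    _ ≤ ‖(bp m - ι v') - (ι v - ι v')‖ + ‖x - ι v‖ := norm_sub_le _ _
    _ ≤ ‖bp m - ι v'‖ + ‖ι v - ι v'‖ + ‖x - ι v‖ := by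
      have := norm_sub_le (bp m - ι v') (ι v - ι v')
      linarith
    _ ≤ ε := by linarith

end Pool.Agent.Lib.MP_a7db77_an
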